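import Mathlib
import Pool.Agent.K3h4.OC.Grp
import Pool.Agent.H715R2.MinimalSet

/-! # Rows whose product is bounded away from zero near a subspace -/

open NumberField Filter Topology H715R2 Matrix
open Pool.Agent.K3h4.OC

namespace Pool.Agent.K3h4.OL

/-- The product is bounded away from zero at the integer points near the common kernel of the rows
in `I`. -/
def Near {d : ℕ} (h : Matrix (Fin d) (Fin d) ℝ) (I : Finset (Fin d)) (δ ν : ℝ) : Prop :=
  ∀ p : Fin d → ℤ, p ≠ 0 → (∀ i ∈ I, |∑ j, h i j * iR p j| ≤ δ * ∑ j, |(p j : ℝ)|) →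
    ν ≤ |FF h (iR p)|

variable {K : Type*} [Field K] [NumberField K] {d : ℕ}

/-- The situation: the rows of `h` in `I` are combinations of the embeddings in `J`, with
`J.card = I.card`, and `J` is not a union of fibres of the restriction to a proper subfield. -/
structure Sys (K : Type*) [Field K] [NumberField K] (d : ℕ) where
  b : Module.Basis (Fin d) ℚ K
  N : ℕ
  hN : 0 < N
  act : ∀ u : (𝓞 K)ˣ, ∀ x : Fin d → ℤ, ∃ y : Fin d → ℤ,
      ∑ j, (y j : ℚ) • b j = (((u ^ N : (𝓞 K)ˣ) : 𝓞 K) : K) * ∑ j, (x j : ℚ) • b j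
  h : Matrix (Fin d) (Fin d) ℝ
  hdet : h.det ≠ 0
  H : Fin d → (K →+* ℂ) → ℂ
  hH : ∀ i j, (h i j : ℂ) = ∑ τ : K →+* ℂ, H i τ * τ (b j)
  I : Finset (Fin d)
  J : Finset (K →+* ℂ)
  hJ : ∀ τ, τ ∈ J ↔ ∃ i ∈ I, H i τ ≠ 0
  hcard : J.card = I.card
  hF : ∀ F : IntermediateField ℚ K, (∀ φ ∈ J, ∀ ψ : K →+* ℂ,
      ψ.comp (algebraMap F K) = φ.comp (algebraMap F K) → ψ ∈ J) → F = ⊤

namespace Sys

variable (D : Sys K d)

lemma hIJ (i : Fin d) (hi : i ∈ D.I) (τ : K →+* ℂ) (hτ : τ ∉ D.J) : D.H i τ = 0 := by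
  by_contra hne
  exact hτ ((D.hJ τ).2 ⟨i, hi, hne⟩)

lemma card_emb (D : Sys K d) : Fintype.card (K →+* ℂ) = d := by
  rw [NumberField.Embeddings.card K ℂ, Module.finrank_eq_card_basis D.b, Fintype.card_fin]

lemma lin (i : Fin d) (x : Fin d → ℝ) :
    ((∑ j, D.h i j * x j : ℝ) : ℂ) = ∑ τ : K →+* ℂ, D.H i τ * ev D.b τ x := by
  push_cast
  simp only [D.hH, ev, Finset.sum_mul, Finset.mul_sum]
  rw [Finset.sum_comm]
  refine Finset.sum_congr rfl fun τ _ => Finset.sum_congr rfl fun j _ => ?_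
  ring

lemma act' (v : (𝓞 K)ˣ) (m : Fin d → ℤ) : ∃ y : Fin d → ℤ, ∀ τ : K →+* ℂ,
    ev D.b τ (iR y) = τ (uu D.N v) * ev D.b τ (iR m) := by
  obtain ⟨y, hy⟩ := D.act v m
  refine ⟨y, fun τ => ?_⟩
  rw [ev_int, ev_int, hy, map_mul]
  rfl

lemma ev_ne (m : Fin d → ℤ) (hm : m ≠ 0) (τ : K →+* ℂ) : ev D.b τ (iR m) ≠ 0 := by
  rw [ev_int]
  intro h0
  apply hm
  have h1 : ∑ j, (m j : ℚ) • D.b j = 0 := (map_eq_zero τ).1 h0
  have h2 := Fintype.linearIndependent_iff.1 D.b.linearIndependent (fun j => (m j : ℚ)) h1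
  funext j
  exact_mod_cast h2 j

lemma y_ne {v : (𝓞 K)ˣ} {m y : Fin d → ℤ} (hm : m ≠ 0)
    (hy : ∀ τ : K →+* ℂ, ev D.b τ (iR y) = τ (uu D.N v) * ev D.b τ (iR m)) : y ≠ 0 := by
  rintro rfl
  have hne : Nonempty (K →+* ℂ) := inferInstance
  obtain ⟨τ⟩ := hne
  have h1 := hy τ
  have h2 : ev D.b τ (iR (0 : Fin d → ℤ)) = 0 := by simp [ev, iR]
  rw [h2] at h1
  exact mul_ne_zero (tau_ne _ _ _) (D.ev_ne m hm τ) h1.symm

/-- the values of an embedding are bounded by the coordinates -/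
lemma ev_le (τ : K →+* ℂ) : ∃ C : ℝ, 0 < C ∧ ∀ p : Fin d → ℤ,
    ‖ev D.b τ (iR p)‖ ≤ C * ∑ j, |(p j : ℝ)| := by
  refine ⟨1 + ∑ j, ‖τ (D.b j)‖, ?_, fun p => ?_⟩
  · have : 0 ≤ ∑ j, ‖τ (D.b j)‖ := Finset.sum_nonneg fun j _ => norm_nonneg _
    linarith
  · unfold ev
    refine (norm_sum_le _ _).trans ?_
    rw [Finset.mul_sum]
    refine Finset.sum_le_sum fun j _ => ?_
    rw [norm_mul, mul_comm]
    have h1 : ‖((iR p j : ℝ) : ℂ)‖ = |(p j : ℝ)| := by
      rw [Complex.norm_real, Real.norm_eq_abs]; rfl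
    rw [h1]
    refine mul_le_mul_of_nonneg_right ?_ (abs_nonneg _)
    have h2 : ‖τ (D.b j)‖ ≤ ∑ j, ‖τ (D.b j)‖ :=
      Finset.single_le_sum (f := fun j => ‖τ (D.b j)‖) (fun _ _ => norm_nonneg _)
        (Finset.mem_univ j)
    linarith

end Sys

/-- A direction, with exponents for the rows. -/
structure Dir {K : Type*} [Field K] [NumberField K] {d : ℕ} (D : Sys K d) where
  e : (K →+* ℂ) → ℝ
  p : InfinitePlace K → ℝ
  hp : ∀ τ, e τ = p (InfinitePlace.mk τ)
  he : ∑ τ : K →+* ℂ, e τ = 0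
  E : Fin d → ℝ
  hE : ∀ i τ, D.H i τ ≠ 0 → e τ ≤ E i
  hEs : ∑ i, E i = 0
  τ₀ : K →+* ℂ
  hI : ∀ i ∈ D.I, E i < e τ₀

namespace Dir

variable {D : Sys K d} (G : Dir D)

open scoped Classical in
/-- the coefficients of the limit rows -/
noncomputable def W (i : Fin d) (τ : K →+* ℂ) : ℂ := if G.e τ = G.E i then D.H i τ else 0

/-- the limit rows -/
noncomputable def Lam (i : Fin d) (c : (K →+* ℂ) → ℂˣ) (x : Fin d → ℝ) : ℂ :=
  ∑ τ : K →+* ℂ, G.W i τ * ((c τ : ℂˣ) : ℂ) * ev D.b τ x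

lemma continuous_Lam (i : Fin d) (x : Fin d → ℝ) : Continuous fun c => G.Lam i c x := by
  unfold Lam
  refine continuous_finsetSum _ fun τ _ => ?_
  refine (continuous_const.mul ?_).mul continuous_const
  exact Units.continuous_val.comp (continuous_apply τ)

lemma exp_zero_of (s : ℝ) : ∏ i : Fin d, Real.exp (s * G.E i) = 1 := by
  rw [← Real.exp_sum, ← Finset.mul_sum, G.hEs, mul_zero, Real.exp_zero]

/-- lower bound for the product of the limit rows, and their reality -/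
theorem lower_rho {δ ν : ℝ} (hδ : 0 < δ) (hnear : Near D.h D.I δ ν) (v : (𝓞 K)ˣ) (t : ℝ)
    (m : Fin d → ℤ) (hm : m ≠ 0) :
    ν ≤ ∏ i, ‖G.Lam i (rho D.N G.e v t) (iR m)‖ ∧
      ∀ i, (G.Lam i (rho D.N G.e v t) (iR m)).im = 0 := by
  classical
  have h := fun k : ℕ => exists_small D.N D.hN G.e G.p G.hp G.he (1 / ((k : ℝ) + 1))
    (by positivity) (k : ℝ)
  choose w s hs hw using h
  choose y hy using fun k : ℕ => D.act' (v * w k) m
  have hs' : Tendsto s atTop atTop := tendsto_atTop_mono hs tendsto_natCast_atTop_atTop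
  have hwlim : ∀ τ, Tendsto (fun k => ((rho D.N G.e (w k) (-(s k)) τ : ℂˣ) : ℂ)) atTop (𝓝 1) := by
    intro τ
    rw [tendsto_iff_norm_sub_tendsto_zero]
    exact squeeze_zero (fun k => norm_nonneg _) (fun k => (hw k τ).le)
      tendsto_one_div_add_atTop_nhds_zero_nat
  have hexp0 : ∀ a : ℝ, 0 < a → Tendsto (fun k => Real.exp ((t - s k) * a)) atTop (𝓝 0) := by
    intro a ha
    refine Real.tendsto_exp_atBot.comp ?_
    refine Tendsto.atBot_mul_const ha ?_
    have := tendsto_neg_atTop_atBot.comp hs'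
    have h6 := tendsto_atBot_add_const_left atTop t this
    refine h6.congr fun k => ?_
    simp only [Function.comp]
    ring
  -- values of a single embedding
  have hev : ∀ k τ, ev D.b τ (iR (y k)) = ((rho D.N G.e v t τ : ℂˣ) : ℂ) * ev D.b τ (iR m) *
      ((rho D.N G.e (w k) (-(s k)) τ : ℂˣ) : ℂ) * ((Real.exp (-(t - s k) * G.e τ) : ℝ) : ℂ) := by
    intro k τ
    rw [hy, uu_mul, map_mul, rho_val, rho_val]
    have h2 : ((Real.exp (t * G.e τ) : ℝ) : ℂ) * ((Real.exp (-(s k) * G.e τ) : ℝ) : ℂ) *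
            ((Real.exp (-(t - s k) * G.e τ) : ℝ) : ℂ) = 1 := by
      rw [← Complex.ofReal_mul, ← Complex.ofReal_mul, ← Real.exp_add, ← Real.exp_add,
        show t * G.e τ + -s k * G.e τ + -(t - s k) * G.e τ = 0 by ring, Real.exp_zero,
        Complex.ofReal_one]
    linear_combination (-(τ (uu D.N v) * τ (uu D.N (w k)) * ev D.b τ (iR m))) * h2
  -- the rows converge
  have hrow : ∀ i, Tendsto (fun k => ((∑ j, D.h i j * iR (y k) j : ℝ) : ℂ) *
      ((Real.exp ((t - s k) * G.E i) : ℝ) : ℂ)) atTop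
      (𝓝 (G.Lam i (rho D.N G.e v t) (iR m))) := by
    intro i
    have h1 : ∀ k, ((∑ j, D.h i j * iR (y k) j : ℝ) : ℂ) *
        ((Real.exp ((t - s k) * G.E i) : ℝ) : ℂ) =
        ∑ τ : K →+* ℂ, (D.H i τ * ((rho D.N G.e v t τ : ℂˣ) : ℂ) * ev D.b τ (iR m)) *
          (((rho D.N G.e (w k) (-(s k)) τ : ℂˣ) : ℂ) *
            ((Real.exp ((t - s k) * (G.E i - G.e τ)) : ℝ) : ℂ)) := by
      intro k
      rw [D.lin, Finset.sum_mul]
      refine Finset.sum_congr rfl fun τ _ => ?_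
      rw [hev]
      have h2 : ((Real.exp ((t - s k) * (G.E i - G.e τ)) : ℝ) : ℂ) =
          ((Real.exp (-(t - s k) * G.e τ) : ℝ) : ℂ) * ((Real.exp ((t - s k) * G.E i) : ℝ) : ℂ) := by
        rw [← Complex.ofReal_mul, ← Real.exp_add]
        congr 2
        ring
      rw [h2]
      ring
    simp only [h1]
    unfold Lam
    refine tendsto_finsetSum _ fun τ _ => ?_
    by_cases hH0 : D.H i τ = 0
    · have hW : G.W i τ = 0 := by
        unfold W
        rw [hH0, ite_self]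
      rw [hH0, hW]; simp
    by_cases hz : G.e τ = G.E i
    · have hW : G.W i τ = D.H i τ := by
        unfold W
        rw [if_pos hz]
      rw [hW]
      have h3 : ∀ k, ((Real.exp ((t - s k) * (G.E i - G.e τ)) : ℝ) : ℂ) = 1 := by
        intro k
        rw [hz, sub_self, mul_zero, Real.exp_zero, Complex.ofReal_one]
      simp only [h3, mul_one]
      have h4 := (hwlim τ).const_mul
        (D.H i τ * ((rho D.N G.e v t τ : ℂˣ) : ℂ) * ev D.b τ (iR m))
      rw [mul_one] at h4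
      exact h4
    · have hW : G.W i τ = 0 := by
        unfold W
        rw [if_neg hz]
      rw [hW, zero_mul, zero_mul]
      have hlt : 0 < G.E i - G.e τ := sub_pos.2 (lt_of_le_of_ne (G.hE i τ hH0) hz)
      have h6 : Tendsto (fun k => ((Real.exp ((t - s k) * (G.E i - G.e τ)) : ℝ) : ℂ)) atTop
          (𝓝 0) := by
        have := (Complex.continuous_ofReal.tendsto 0).comp (hexp0 _ hlt)
        rw [Complex.ofReal_zero] at this
        exact this
      have h7 := ((hwlim τ).mul h6).const_mul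
        (D.H i τ * ((rho D.N G.e v t τ : ℂˣ) : ℂ) * ev D.b τ (iR m))
      rw [mul_zero, mul_zero] at h7
      exact h7
  refine ⟨?_, fun i => ?_⟩
  · -- the points are near the subspace
    obtain ⟨C, hC, hCle⟩ := D.ev_le G.τ₀
    have hnb : ∀ i ∈ D.I, ∀ᶠ k in atTop,
        |∑ j, D.h i j * iR (y k) j| ≤ δ * ∑ j, |(y k j : ℝ)| := by
      intro i hi
      obtain ⟨B, hB⟩ : ∃ B : ℝ, B = ‖((rho D.N G.e v t G.τ₀ : ℂˣ) : ℂ) * ev D.b G.τ₀ (iR m)‖ :=
        ⟨_, rfl⟩
      have hBpos : 0 < B := by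
        rw [hB, norm_pos_iff]
        exact mul_ne_zero (Units.ne_zero _) (D.ev_ne m hm _)
      have ha : Tendsto (fun k => ‖((∑ j, D.h i j * iR (y k) j : ℝ) : ℂ) *
          ((Real.exp ((t - s k) * G.E i) : ℝ) : ℂ)‖ *
            Real.exp ((t - s k) * (G.e G.τ₀ - G.E i))) atTop (𝓝 0) := by
        have h1 := (hrow i).norm.mul (hexp0 _ (sub_pos.2 (G.hI i hi)))
        rw [mul_zero] at h1
        exact h1
      have hb : Tendsto (fun k => (δ / C) * (B *
          ‖((rho D.N G.e (w k) (-(s k)) G.τ₀ : ℂˣ) : ℂ)‖)) atTop (𝓝 ((δ / C) * (B * 1))) := by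
        have h1 := (hwlim G.τ₀).norm
        rw [norm_one] at h1
        exact (h1.const_mul B).const_mul (δ / C)
      have hlt : (0 : ℝ) < (δ / C) * (B * 1) := by positivity
      filter_upwards [ha.eventually_lt hb hlt] with k hk
      have e1 : ‖((∑ j, D.h i j * iR (y k) j : ℝ) : ℂ) *
          ((Real.exp ((t - s k) * G.E i) : ℝ) : ℂ)‖ * Real.exp ((t - s k) * (G.e G.τ₀ - G.E i)) =
          |∑ j, D.h i j * iR (y k) j| * Real.exp ((t - s k) * G.e G.τ₀) := by
        rw [norm_mul, Complex.norm_real, Complex.norm_real, Real.norm_eq_abs, Real.norm_eq_abs,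
          abs_of_pos (Real.exp_pos _), mul_assoc, ← Real.exp_add]
        congr 2
        ring
      have e2 : ‖ev D.b G.τ₀ (iR (y k))‖ * Real.exp ((t - s k) * G.e G.τ₀) =
          B * ‖((rho D.N G.e (w k) (-(s k)) G.τ₀ : ℂˣ) : ℂ)‖ := by
        rw [hev, norm_mul, norm_mul, ← hB, Complex.norm_real, Real.norm_eq_abs,
          abs_of_pos (Real.exp_pos _), mul_assoc, ← Real.exp_add,
          show -(t - s k) * G.e G.τ₀ + (t - s k) * G.e G.τ₀ = 0 by ring, Real.exp_zero, mul_one]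
      rw [e1, ← e2, ← mul_assoc] at hk
      have h3 := lt_of_mul_lt_mul_right hk (Real.exp_pos _).le
      have h4 : (δ / C) * ‖ev D.b G.τ₀ (iR (y k))‖ ≤ (δ / C) * (C * ∑ j, |(y k j : ℝ)|) :=
        mul_le_mul_of_nonneg_left (hCle _) (by positivity)
      have h5 : (δ / C) * (C * ∑ j, |(y k j : ℝ)|) = δ * ∑ j, |(y k j : ℝ)| := by
        field_simp
      linarith
    have hnb' : ∀ᶠ k in atTop, ∀ i ∈ D.I,
        |∑ j, D.h i j * iR (y k) j| ≤ δ * ∑ j, |(y k j : ℝ)| := by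
      rw [Filter.eventually_all_finset]
      exact hnb
    have hval : ∀ᶠ k in atTop, ν ≤ ∏ i, ‖((∑ j, D.h i j * iR (y k) j : ℝ) : ℂ) *
        ((Real.exp ((t - s k) * G.E i) : ℝ) : ℂ)‖ := by
      filter_upwards [hnb'] with k hk
      have h1 := hnear (y k) (D.y_ne hm (hy k)) hk
      have h2 : ∏ i, ‖((∑ j, D.h i j * iR (y k) j : ℝ) : ℂ) *
          ((Real.exp ((t - s k) * G.E i) : ℝ) : ℂ)‖ = |FF D.h (iR (y k))| := by
        have h3 : ∀ i, ‖((∑ j, D.h i j * iR (y k) j : ℝ) : ℂ) *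
            ((Real.exp ((t - s k) * G.E i) : ℝ) : ℂ)‖ =
            |∑ j, D.h i j * iR (y k) j| * Real.exp ((t - s k) * G.E i) := by
          intro i
          rw [norm_mul, Complex.norm_real, Complex.norm_real, Real.norm_eq_abs, Real.norm_eq_abs,
            abs_of_pos (Real.exp_pos _)]
        rw [Finset.prod_congr rfl fun i _ => h3 i, Finset.prod_mul_distrib, G.exp_zero_of, mul_one,
          FF, Finset.abs_prod]
      rw [h2]
      exact h1
    have hprod : Tendsto (fun k => ∏ i, ‖((∑ j, D.h i j * iR (y k) j : ℝ) : ℂ) *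
        ((Real.exp ((t - s k) * G.E i) : ℝ) : ℂ)‖) atTop
        (𝓝 (∏ i, ‖G.Lam i (rho D.N G.e v t) (iR m)‖)) :=
      tendsto_finsetProd _ fun i _ => (hrow i).norm
    exact ge_of_tendsto hprod hval
  · have h1 := (Complex.continuous_im.tendsto _).comp (hrow i)
    have h2 : (Complex.im ∘ fun k => ((∑ j, D.h i j * iR (y k) j : ℝ) : ℂ) *
        ((Real.exp ((t - s k) * G.E i) : ℝ) : ℂ)) = fun _ => (0 : ℝ) := by
      funext k
      simp only [Function.comp]
      rw [← Complex.ofReal_mul, Complex.ofReal_im]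
    rw [h2] at h1
    exact (tendsto_nhds_unique h1 tendsto_const_nhds)

theorem lower {δ ν : ℝ} (hδ : 0 < δ) (hnear : Near D.h D.I δ ν)
    (c : (K →+* ℂ) → ℂˣ) (hc : c ∈ CC D.N G.e) (m : Fin d → ℤ)
    (hm : m ≠ 0) : ν ≤ ∏ i, ‖G.Lam i c (iR m)‖ := by
  have hcl : IsClosed {c : (K →+* ℂ) → ℂˣ | ν ≤ ∏ i, ‖G.Lam i c (iR m)‖} :=
    isClosed_le continuous_const
      (continuous_finsetProd _ fun i _ => (G.continuous_Lam i (iR m)).norm)
  exact CC_induction _ hcl (fun v t => (G.lower_rho hδ hnear v t m hm).1) c hc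

lemma Lam_zero (i : Fin d) (c : (K →+* ℂ) → ℂˣ) : G.Lam i c (iR 0) = 0 := by
  unfold Lam
  refine Finset.sum_eq_zero fun τ _ => ?_
  have h2 : ev D.b τ (iR (0 : Fin d → ℤ)) = 0 := by simp [ev, iR]
  rw [h2, mul_zero]

lemma lam_int_real {δ ν : ℝ} (hδ : 0 < δ) (hnear : Near D.h D.I δ ν)
    (i : Fin d) (c : (K →+* ℂ) → ℂˣ) (hc : c ∈ CC D.N G.e)
    (m : Fin d → ℤ) : (G.Lam i c (iR m)).im = 0 := by
  classical
  by_cases hm : m = 0
  · rw [hm, G.Lam_zero, Complex.zero_im]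
  have hcl : IsClosed {c : (K →+* ℂ) → ℂˣ | (G.Lam i c (iR m)).im = 0} :=
    isClosed_eq (Complex.continuous_im.comp (G.continuous_Lam i (iR m))) continuous_const
  exact CC_induction _ hcl (fun v t => (G.lower_rho hδ hnear v t m hm).2 i) c hc

lemma ev_single (j : Fin d) (τ : K →+* ℂ) :
    ev D.b τ (iR (Pi.single j 1)) = τ (D.b j) := by
  unfold ev
  rw [Finset.sum_eq_single j]
  · simp [iR]
  · intro k _ hk; simp [iR, hk]
  · simp

lemma Lam_basis (i : Fin d) (c : (K →+* ℂ) → ℂˣ) (x : Fin d → ℝ) :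
    G.Lam i c x = ∑ j, (x j : ℂ) * G.Lam i c (iR (Pi.single j 1)) := by
  unfold Lam
  simp only [ev_single, Finset.mul_sum]
  rw [Finset.sum_comm]
  refine Finset.sum_congr rfl fun τ _ => ?_
  rw [ev, Finset.mul_sum]
  refine Finset.sum_congr rfl fun j _ => ?_
  ring

lemma lam_real {δ ν : ℝ} (hδ : 0 < δ) (hnear : Near D.h D.I δ ν)
    (i : Fin d) (c : (K →+* ℂ) → ℂˣ) (hc : c ∈ CC D.N G.e)
    (x : Fin d → ℝ) : (G.Lam i c x).im = 0 := by
  rw [G.Lam_basis, Complex.im_sum]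
  refine Finset.sum_eq_zero fun j _ => ?_
  rw [Complex.mul_im, G.lam_int_real hδ hnear i c hc, Complex.ofReal_im]
  ring

/-- the real functional -/
noncomputable def fr (i : Fin d) (c : (K →+* ℂ) → ℂˣ) : (Fin d → ℝ) →ₗ[ℝ] ℝ where
  toFun x := (G.Lam i c x).re
  map_add' x y := by
    simp only [Lam, ev_add, mul_add, Finset.sum_add_distrib, Complex.add_re]
  map_smul' a x := by
    have h1 : G.Lam i c (a • x) = a * G.Lam i c x := by
      simp only [Lam, ev_smul, Finset.mul_sum]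
      refine Finset.sum_congr rfl fun τ _ => ?_
      ring
    rw [h1]
    simp

lemma fr_apply (i : Fin d) (c : (K →+* ℂ) → ℂˣ) (x : Fin d → ℝ) :
    G.fr i c x = (G.Lam i c x).re := rfl

/-- **Two embeddings in the main part of a row are not separated by the tangent space.** -/
theorem single {δ ν : ℝ} (hδ : 0 < δ) (hν : 0 < ν) (hnear : Near D.h D.I δ ν)
    (i : Fin d) (τ τ' : K →+* ℂ) (h1 : G.W i τ ≠ 0) (h2 : G.W i τ' ≠ 0)
    (η : (K →+* ℂ) → ℂ) (hη : η ∈ tang (CC D.N G.e)) (hητ : η τ ≠ η τ') : False := by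
  classical
  obtain ⟨t₀, ht₀⟩ : ∃ t₀ : ℝ, Complex.exp (t₀ * (η τ - η τ')) ≠ 1 := by
    by_contra hcon
    push Not at hcon
    exact hητ (sub_eq_zero.1 (exp_all_one _ hcon))
  have hmem : ∀ s : ℝ, expM (s • η) ∈ CC D.N G.e := fun s => hη s
  have hneC : ((expM (t₀ • η) τ : ℂˣ) : ℂ) ≠ ((expM (t₀ • η) τ' : ℂˣ) : ℂ) := by
    intro heq
    apply ht₀
    rw [coe_expM, coe_expM] at heq
    simp only [Pi.smul_apply, Complex.real_smul] at heq
    rw [mul_sub, Complex.exp_sub, heq, div_self (Complex.exp_ne_zero _)]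
  -- functionals
  have hLf : ∀ c ∈ CC D.N G.e, ∀ x, G.Lam i c x = (G.fr i c x : ℂ) := by
    intro c hc x
    rw [G.fr_apply]
    exact (Complex.ext (by simp) (by simp [G.lam_real hδ hnear i c hc x]))
  have hf : G.fr i 1 ≠ 0 := by
    intro h0
    apply h1
    have h3 := embed_indep D.b (fun σ => G.W i σ) (by
      intro j
      have h4 : G.Lam i 1 (iR (Pi.single j 1)) = 0 := by
        rw [hLf 1 (CC D.N G.e).one_mem, h0]
        simp
      unfold Lam at h4
      simp only [ev_single, Pi.one_apply, Units.val_one, mul_one] at h4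
      exact h4)
    exact congrFun h3 τ
  have hg : ¬ ∃ κ : ℝ, 0 ≤ κ ∧ G.fr i (expM (t₀ • η)) = κ • G.fr i 1 := by
    rintro ⟨κ, -, hκ⟩
    have h3 : ∀ x, G.Lam i (expM (t₀ • η)) x = κ * G.Lam i 1 x := by
      intro x
      rw [hLf _ (hmem t₀), hLf _ (CC D.N G.e).one_mem, hκ]
      simp
    have h4 := embed_indep D.b
      (fun σ => G.W i σ * (((expM (t₀ • η) σ : ℂˣ) : ℂ) - κ)) (by
        intro j
        have h5 := h3 (iR (Pi.single j 1))
        unfold Lam at h5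
        simp only [ev_single, Pi.one_apply, Units.val_one, mul_one] at h5
        rw [Finset.mul_sum, ← sub_eq_zero, ← Finset.sum_sub_distrib] at h5
        rw [← h5]
        refine Finset.sum_congr rfl fun σ _ => ?_
        ring)
    have h5 := congrFun h4 τ
    have h6 := congrFun h4 τ'
    simp only [Pi.zero_apply] at h5 h6
    have h7 := (mul_eq_zero.1 h5).resolve_left h1
    have h8 := (mul_eq_zero.1 h6).resolve_left h2
    exact hneC (by rw [sub_eq_zero.1 h7, sub_eq_zero.1 h8])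
  obtain ⟨x, hx1, hx2⟩ := exists_pos_neg (G.fr i 1) (G.fr i (expM (t₀ • η))) hf hg
  have hopen : IsOpen {x : Fin d → ℝ | 0 < G.fr i 1 x ∧ G.fr i (expM (t₀ • η)) x < 0} := by
    have c1 : Continuous (G.fr i 1) := LinearMap.continuous_of_finiteDimensional _
    have c2 : Continuous (G.fr i (expM (t₀ • η))) := LinearMap.continuous_of_finiteDimensional _
    exact (isOpen_lt continuous_const c1).inter (isOpen_lt c2 continuous_const)
  obtain ⟨m, k, hk, hm1, hm2⟩ := exists_int_point _ hopen x ⟨hx1, hx2⟩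
  have hkr : (0 : ℝ) < k := by exact_mod_cast hk
  have hsc : (fun j => (m j : ℝ) / k) = (1 / (k : ℝ)) • iR m := by
    funext j
    simp only [iR, Pi.smul_apply, smul_eq_mul]
    ring
  rw [hsc, map_smul, smul_eq_mul] at hm1 hm2
  have hm1' : 0 < G.fr i 1 (iR m) := by
    have := mul_pos hkr hm1
    rwa [← mul_assoc, mul_one_div, div_self hkr.ne', one_mul] at this
  have hm2' : G.fr i (expM (t₀ • η)) (iR m) < 0 := by
    have := mul_neg_of_pos_of_neg hkr hm2
    rwa [← mul_assoc, mul_one_div, div_self hkr.ne', one_mul] at this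
  have hm0 : m ≠ 0 := by
    rintro rfl
    have : iR (0 : Fin d → ℤ) = 0 := by funext j; simp [iR]
    rw [this, map_zero] at hm1'
    exact lt_irrefl _ hm1'
  -- intermediate value
  have hcont : Continuous fun s : ℝ => G.fr i (expM (s • η)) (iR m) := by
    simp only [fr_apply]
    refine Complex.continuous_re.comp ((G.continuous_Lam i (iR m)).comp ?_)
    exact continuous_expM.comp (continuous_id.smul continuous_const)
  obtain ⟨s, hs⟩ : (0 : ℝ) ∈ Set.range fun s : ℝ => G.fr i (expM (s • η)) (iR m) := by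
    refine mem_range_of_exists_le_of_exists_ge hcont ⟨t₀, hm2'.le⟩ ⟨0, ?_⟩
    rw [zero_smul, expM_zero]
    exact hm1'.le
  have hz : G.Lam i (expM (s • η)) (iR m) = 0 := by
    rw [hLf _ (hmem s)]
    simp only at hs
    rw [hs, Complex.ofReal_zero]
  have hlow := G.lower hδ hnear (expM (s • η)) (hmem s) m hm0
  rw [Finset.prod_eq_zero (Finset.mem_univ i) (by rw [hz, norm_zero])] at hlow
  exact absurd hν (not_lt.2 hlow)

end Dir

end Pool.Agent.K3h4.OL
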