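import Mathlib
import Pool.Agent.K3h4.OC.Mat
import Pool.Agent.K3h4.OL.Dir

/-! # From a rational matrix with irreducible characteristic polynomial to the local data -/

open NumberField Filter Topology H715R2 Matrix
open Pool.Agent.K3h4.OC

namespace Pool.Agent.K3h4.OL

variable {d : ℕ}

theorem exists_sys (hd : 0 < d) (A : Matrix (Fin d) (Fin d) ℚ) (hA : Irreducible A.charpoly)
    (h : Matrix (Fin d) (Fin d) ℝ) (hdet : h.det ≠ 0)
    (I : Finset (Fin d)) (hinv : Pres h I A)
    (hcond : Nat.Coprime I.card d ∨
      ∀ B C : Matrix (Fin d) (Fin d) ℚ, Pres h I B → Pres h I C → B * C = C * B) :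
    ∃ (K : Type) (_ : Field K) (_ : NumberField K) (D : Sys K d) (lam : K), D.h = h ∧ D.I = I ∧
      (∀ k, ∑ j, (A j k) • D.b j = lam * D.b k) ∧
      Function.Injective (fun τ : K →+* ℂ => τ lam) := by
  classical
  obtain ⟨K, _, _, b, lam, hlam, hinj⟩ := exists_field A hA
  obtain ⟨N, hN, -, act⟩ := exists_pow_act (K := K) b
  choose H hH using fun i => embed_surj b (fun j => (h i j : ℂ))
  obtain ⟨c, hc⟩ := rows_invariant hdet I hinv
  -- the eigenvalue equations for the rows of embeddings
  have hev : ∀ (τ : K →+* ℂ) k, ∑ j, (A j k : ℂ) * τ (b j) = τ lam * τ (b k) := by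
    intro τ k
    rw [← map_mul, ← hlam k, map_sum]
    refine Finset.sum_congr rfl fun j _ => ?_
    rw [Algebra.smul_def, map_mul]
    simp
  have hrel : ∀ i ∈ I, ∀ τ, H i τ * τ lam = ∑ i' ∈ I, (c i i' : ℂ) * H i' τ := by
    intro i hi τ
    have h1 := embed_indep b
      (fun τ => H i τ * τ lam - ∑ i' ∈ I, (c i i' : ℂ) * H i' τ) (by
        intro k
        have h2 := hc i hi k
        have h3 : (((h * A.map (Rat.cast : ℚ → ℝ)) i k : ℝ) : ℂ) =
            ∑ τ : K →+* ℂ, H i τ * τ lam * τ (b k) := by
          rw [Matrix.mul_apply]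
          push_cast
          simp only [Matrix.map_apply, hH i, Finset.sum_mul]
          rw [Finset.sum_comm]
          refine Finset.sum_congr rfl fun σ _ => ?_
          rw [mul_assoc, ← hev σ k, Finset.mul_sum]
          refine Finset.sum_congr rfl fun j _ => ?_
          push_cast
          ring
        have h4 : ((∑ i' ∈ I, c i i' * h i' k : ℝ) : ℂ) =
            ∑ τ : K →+* ℂ, (∑ i' ∈ I, (c i i' : ℂ) * H i' τ) * τ (b k) := by
          push_cast
          simp only [hH, Finset.mul_sum, Finset.sum_mul]
          rw [Finset.sum_comm]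
          refine Finset.sum_congr rfl fun σ _ => Finset.sum_congr rfl fun i' _ => ?_
          ring
        simp only [sub_mul, Finset.sum_sub_distrib]
        rw [← h3, ← h4, h2, sub_self])
    have h5 := congrFun h1 τ
    exact sub_eq_zero.1 h5
  obtain ⟨J, hJ⟩ : ∃ J : Finset (K →+* ℂ), ∀ τ, τ ∈ J ↔ ∃ i ∈ I, H i τ ≠ 0 :=
    ⟨Finset.univ.filter fun τ => ∃ i ∈ I, H i τ ≠ 0, fun τ => by simp⟩
  have hIJ : ∀ i ∈ I, ∀ τ, τ ∉ J → H i τ = 0 := by
    intro i hi τ hτ
    by_contra hne
    exact hτ ((hJ τ).2 ⟨i, hi, hne⟩)
  -- the span of the rows in `I`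
  obtain ⟨S, hS⟩ : ∃ S : Submodule ℂ ((K →+* ℂ) → ℂ),
      S = Submodule.span ℂ ((I.image H : Finset ((K →+* ℂ) → ℂ)) : Set ((K →+* ℂ) → ℂ)) := ⟨_, rfl⟩
  have hHS : ∀ i ∈ I, H i ∈ S := by
    intro i hi
    rw [hS]
    exact Submodule.subset_span (by
      rw [Finset.coe_image]
      exact ⟨i, hi, rfl⟩)
  have hdiag : ∀ v ∈ S, (fun τ => τ lam * v τ) ∈ S := by
    intro v hv
    let T : ((K →+* ℂ) → ℂ) →ₗ[ℂ] ((K →+* ℂ) → ℂ) :=
      { toFun := fun v τ => τ lam * v τ
        map_add' := by intro x y; funext τ; simp [mul_add]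
        map_smul' := by intro a x; funext τ; simp; ring }
    have h1 : S ≤ S.comap T := by
      conv_lhs => rw [hS]
      rw [Submodule.span_le]
      intro v hv
      rw [Finset.coe_image] at hv
      obtain ⟨i, hi, rfl⟩ := hv
      show T (H i) ∈ S
      have h2 : T (H i) = ∑ i' ∈ I, (c i i' : ℂ) • H i' := by
        funext τ
        show τ lam * H i τ = _
        rw [mul_comm, hrel i hi τ, Finset.sum_apply]
        rfl
      rw [h2]
      exact S.sum_mem fun i' hi' => S.smul_mem _ (hHS i' hi')
    exact h1 hv
  have hpoly : ∀ (Q : Polynomial ℂ), ∀ v ∈ S, (fun τ => Q.eval (τ lam) * v τ) ∈ S := by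
    intro Q
    induction Q using Polynomial.induction_on with
    | C a =>
      intro v hv
      have : (fun τ : K →+* ℂ => (Polynomial.C a).eval (τ lam) * v τ) = a • v := by
        funext τ; simp
      rw [this]
      exact S.smul_mem a hv
    | add Q R hQ hR =>
      intro v hv
      have : (fun τ : K →+* ℂ => (Q + R).eval (τ lam) * v τ) =
          (fun τ => Q.eval (τ lam) * v τ) + (fun τ => R.eval (τ lam) * v τ) := by
        funext τ; simp [add_mul]
      rw [this]
      exact S.add_mem (hQ v hv) (hR v hv)
    | monomial n a ih =>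
      intro v hv
      have h1 := hdiag _ (ih v hv)
      have : (fun τ : K →+* ℂ => (Polynomial.C a * Polynomial.X ^ (n + 1)).eval (τ lam) * v τ) =
          (fun τ => τ lam * ((Polynomial.C a * Polynomial.X ^ n).eval (τ lam) * v τ)) := by
        funext τ
        simp only [Polynomial.eval_mul, Polynomial.eval_C, Polynomial.eval_pow,
          Polynomial.eval_X, pow_succ]
        ring
      rw [this]
      exact h1
  have hsingle : ∀ τ₀ ∈ J, (Pi.single τ₀ (1 : ℂ) : (K →+* ℂ) → ℂ) ∈ S := by
    intro τ₀ hτ₀
    obtain ⟨i, hi, hne⟩ := (hJ τ₀).1 hτ₀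
    obtain ⟨Q, hQ⟩ : ∃ Q : Polynomial ℂ, Q =
        ∏ τ ∈ Finset.univ.erase τ₀, (Polynomial.X - Polynomial.C (τ lam)) := ⟨_, rfl⟩
    have h1 := hpoly Q (H i) (hHS i hi)
    have hQ0 : Q.eval (τ₀ lam) ≠ 0 := by
      rw [hQ, Polynomial.eval_prod]
      refine Finset.prod_ne_zero_iff.2 fun τ hτ => ?_
      rw [Polynomial.eval_sub, Polynomial.eval_X, Polynomial.eval_C, sub_ne_zero]
      intro heq
      exact (Finset.mem_erase.1 hτ).1 (hinj heq.symm)
    have h2 : (fun τ : K →+* ℂ => Q.eval (τ lam) * H i τ) =
        (Q.eval (τ₀ lam) * H i τ₀) • (Pi.single τ₀ (1 : ℂ) : (K →+* ℂ) → ℂ) := by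
      funext τ
      by_cases hτ : τ = τ₀
      · rw [hτ]; simp
      · rw [Pi.smul_apply, Pi.single_eq_of_ne hτ, smul_zero]
        have : Q.eval (τ lam) = 0 := by
          rw [hQ, Polynomial.eval_prod]
          refine Finset.prod_eq_zero (Finset.mem_erase.2 ⟨hτ, Finset.mem_univ τ⟩) ?_
          simp
        rw [this, zero_mul]
    rw [h2] at h1
    have h3 := S.smul_mem (Q.eval (τ₀ lam) * H i τ₀)⁻¹ h1
    rwa [smul_smul, inv_mul_cancel₀ (mul_ne_zero hQ0 hne), one_smul] at h3
  have hle1 : J.card ≤ I.card := by
    have h1 : LinearIndependent ℂ (fun τ : J => (⟨Pi.single τ.1 1, hsingle τ.1 τ.2⟩ : S)) := by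
      have h2 : LinearIndependent ℂ (fun τ : J => (Pi.single τ.1 1 : (K →+* ℂ) → ℂ)) := by
        have h3 := (Pi.basisFun ℂ (K →+* ℂ)).linearIndependent
        have h4 := h3.comp (fun τ : J => τ.1) Subtype.val_injective
        have h5 : (fun τ : J => (Pi.single τ.1 1 : (K →+* ℂ) → ℂ)) =
            (Pi.basisFun ℂ (K →+* ℂ)) ∘ (fun τ : J => τ.1) := by
          funext τ
          simp [Pi.basisFun_apply]
        rw [h5]
        exact h4
      exact LinearIndependent.of_comp S.subtype h2
    have h5 := h1.fintype_card_le_finrank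
    rw [Fintype.card_coe] at h5
    have h6 : Module.finrank ℂ S ≤ (I.image H).card := by
      rw [hS]
      exact finrank_span_finset_le_card _
    exact h5.trans (h6.trans Finset.card_image_le)
  have hle2 : I.card ≤ J.card := by
    have h1 : LinearIndependent ℂ (fun i : I => (fun τ : J => H i.1 τ.1)) := by
      rw [Fintype.linearIndependent_iff]
      intro a ha
      -- complex combination of the rows of `h`
      have h2 : ∀ τ, ∑ i : I, a i * H i.1 τ = 0 := by
        intro τ
        by_cases hτ : τ ∈ J
        · have h3 := congrFun ha ⟨τ, hτ⟩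
          simpa [Finset.sum_apply] using h3
        · exact Finset.sum_eq_zero fun i _ => by rw [hIJ i.1 i.2 τ hτ, mul_zero]
      have h3 : ∀ j, ∑ i : I, a i * (h i.1 j : ℂ) = 0 := by
        intro j
        simp only [hH, Finset.mul_sum]
        rw [Finset.sum_comm]
        refine Finset.sum_eq_zero fun τ _ => ?_
        have : ∀ i : I, a i * (H i.1 τ * τ (b j)) = (a i * H i.1 τ) * τ (b j) := fun i => by ring
        rw [Finset.sum_congr rfl fun i _ => this i, ← Finset.sum_mul, h2 τ, zero_mul]
      have hdetC : (h.map (Complex.ofRealHom : ℝ → ℂ)).det ≠ 0 := by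
        have h4 := (Complex.ofRealHom).map_det h
        rw [RingHom.mapMatrix_apply] at h4
        rw [← h4]
        intro h0
        exact hdet (Complex.ofReal_eq_zero.1 h0)
      have h5 : (fun i : Fin d => if hi : i ∈ I then a ⟨i, hi⟩ else 0) ᵥ*
          (h.map (Complex.ofRealHom : ℝ → ℂ)) = 0 := by
        funext j
        rw [Matrix.vecMul, dotProduct, Pi.zero_apply]
        refine Eq.trans ?_ (h3 j)
        rw [← Finset.sum_subset (Finset.subset_univ I)]
        · rw [← Finset.sum_coe_sort I]
          refine Finset.sum_congr rfl fun i _ => ?_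
          rw [dif_pos i.2]
          rfl
        · intro i _ hi
          rw [dif_neg hi, zero_mul]
      have h6 := Matrix.eq_zero_of_vecMul_eq_zero hdetC h5
      intro i
      have h7 := congrFun h6 i.1
      simp only [Pi.zero_apply] at h7
      rwa [dif_pos i.2] at h7
    have h8 := h1.fintype_card_le_finrank
    rw [Fintype.card_coe, Module.finrank_fintype_fun_eq_card, Fintype.card_coe] at h8
    exact h8
  have hlin : ∀ (i : Fin d) (x : Fin d → ℝ),
      ((∑ j, h i j * x j : ℝ) : ℂ) = ∑ τ : K →+* ℂ, H i τ * ev b τ x := by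
    intro i x
    push_cast
    simp only [hH, ev, Finset.sum_mul, Finset.mul_sum]
    rw [Finset.sum_comm]
    refine Finset.sum_congr rfl fun τ _ => Finset.sum_congr rfl fun j _ => ?_
    ring
  refine ⟨K, inferInstance, inferInstance,
    { b := b, N := N, hN := hN, act := act, h := h, hdet := hdet, H := H, hH := hH,
      I := I, J := J, hJ := hJ, hcard := le_antisymm hle1 hle2,
      hF := ?_ }, lam, rfl, rfl, hlam, hinj⟩
  · intro F hFJ
    rcases hcond with hco | hcomm
    · refine top_of_coprime J ?_ F hFJ
      rw [Module.finrank_eq_card_basis b, Fintype.card_fin, le_antisymm hle1 hle2]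
      exact hco
    · -- the trace to `F` preserves the common kernel
      obtain ⟨B, hB⟩ : ∃ B : Matrix (Fin d) (Fin d) ℚ, ∀ k,
          ∑ j, (B j k) • b j = algebraMap F K (Algebra.trace F K (b k)) := by
        refine ⟨fun j k => b.repr (algebraMap F K (Algebra.trace F K (b k))) j, fun k => ?_⟩
        exact b.sum_repr _
      have hevB : ∀ (τ : K →+* ℂ) (x : Fin d → ℝ),
          ev b τ ((B.map (Rat.cast : ℚ → ℝ)) *ᵥ x) =
          ∑ ψ ∈ Finset.univ.filter (fun ψ : K →+* ℂ =>
            ψ.comp (algebraMap F K) = τ.comp (algebraMap F K)), ev b ψ x := by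
        intro τ x
        have h1 : ∀ k, ∑ j, (B j k : ℂ) * τ (b j) =
            ∑ ψ ∈ Finset.univ.filter (fun ψ : K →+* ℂ =>
              ψ.comp (algebraMap F K) = τ.comp (algebraMap F K)), ψ (b k) := by
          intro k
          rw [← trace_embed F τ (b k), ← hB k, map_sum]
          refine Finset.sum_congr rfl fun j _ => ?_
          rw [Algebra.smul_def, map_mul]
          simp
        have h2 : ev b τ ((B.map (Rat.cast : ℚ → ℝ)) *ᵥ x) =
            ∑ k, (x k : ℂ) * ∑ j, (B j k : ℂ) * τ (b j) := by
          unfold ev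
          simp only [Matrix.mulVec, dotProduct, Matrix.map_apply]
          push_cast
          simp only [Finset.sum_mul, Finset.mul_sum]
          rw [Finset.sum_comm]
          refine Finset.sum_congr rfl fun k _ => Finset.sum_congr rfl fun j _ => ?_
          ring
        rw [h2]
        simp only [h1, Finset.mul_sum]
        rw [Finset.sum_comm]
        rfl
      have hkerJ : ∀ x : Fin d → ℝ, (∀ i ∈ I, (h *ᵥ x) i = 0) → ∀ τ ∈ J, ev b τ x = 0 := by
        intro x hx τ hτ
        have h1 := hsingle τ hτ
        rw [hS] at h1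
        have h2 : ∀ v ∈ Submodule.span ℂ
            ((I.image H : Finset ((K →+* ℂ) → ℂ)) : Set ((K →+* ℂ) → ℂ)),
            ∑ σ : K →+* ℂ, v σ * ev b σ x = 0 := by
          intro v hv
          induction hv using Submodule.span_induction with
          | mem v hv =>
            rw [Finset.coe_image] at hv
            obtain ⟨i, hi, rfl⟩ := hv
            rw [← hlin i x]
            have h3 := hx i hi
            rw [Matrix.mulVec, dotProduct] at h3
            rw [h3, Complex.ofReal_zero]
          | zero => simp
          | add v w _ _ hv hw => simp [add_mul, Finset.sum_add_distrib, hv, hw]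
          | smul a v _ hv =>
            have : ∀ σ : K →+* ℂ, (a • v) σ * ev b σ x = a * (v σ * ev b σ x) := by
              intro σ
              simp [mul_assoc]
            rw [Finset.sum_congr rfl fun σ _ => this σ, ← Finset.mul_sum, hv, mul_zero]
        have h3 := h2 _ h1
        rw [Finset.sum_eq_single τ] at h3
        · simpa using h3
        · intro σ _ hσ
          rw [Pi.single_eq_of_ne hσ, zero_mul]
        · simp
      have hBpres : Pres h I B := by
        intro x hx i hi
        have h1 := hlin i ((B.map (Rat.cast : ℚ → ℝ)) *ᵥ x)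
        have h2 : ∑ τ : K →+* ℂ, H i τ * ev b τ ((B.map (Rat.cast : ℚ → ℝ)) *ᵥ x) = 0 := by
          refine Finset.sum_eq_zero fun τ _ => ?_
          by_cases hτ : τ ∈ J
          · rw [hevB, Finset.sum_eq_zero, mul_zero]
            intro ψ hψ
            exact hkerJ x hx ψ (hFJ τ hτ ψ (Finset.mem_filter.1 hψ).2)
          · rw [hIJ i hi τ hτ, zero_mul]
        rw [h2] at h1
        exact_mod_cast h1
      have hAB := hcomm A B hinv hBpres
      -- both sides applied to an element
      have hop : ∀ z : K, lam * algebraMap F K (Algebra.trace F K z) =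
          algebraMap F K (Algebra.trace F K (lam * z)) := by
        have hmulA : ∀ (q : Fin d → ℚ), lam * ∑ k, q k • b k = ∑ j, (A *ᵥ q) j • b j := by
          intro q
          simp only [Matrix.mulVec, dotProduct, Finset.sum_smul, Finset.mul_sum]
          rw [Finset.sum_comm]
          refine Finset.sum_congr rfl fun k _ => ?_
          rw [mul_smul_comm, ← hlam k, Finset.smul_sum]
          refine Finset.sum_congr rfl fun j _ => ?_
          rw [smul_smul, mul_comm]
        have hmulB : ∀ (q : Fin d → ℚ), algebraMap F K (Algebra.trace F K (∑ k, q k • b k)) =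
            ∑ j, (B *ᵥ q) j • b j := by
          intro q
          simp only [Matrix.mulVec, dotProduct, Finset.sum_smul]
          rw [Finset.sum_comm, map_sum, map_sum]
          refine Finset.sum_congr rfl fun k _ => ?_
          have h1 : Algebra.trace F K (q k • b k) = q k • Algebra.trace F K (b k) := by
            have h2 : q k • b k = (algebraMap ℚ F (q k)) • b k := by
              rw [Algebra.smul_def, Algebra.smul_def, ← IsScalarTower.algebraMap_apply]
            rw [h2, map_smul, Algebra.smul_def, Algebra.smul_def]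
            rfl
          have h3 : algebraMap F K (q k • Algebra.trace F K (b k)) =
              q k • algebraMap F K (Algebra.trace F K (b k)) := by
            rw [Algebra.smul_def, Algebra.smul_def, map_mul, ← IsScalarTower.algebraMap_apply]
          rw [h1, h3, ← hB k, Finset.smul_sum]
          refine Finset.sum_congr rfl fun j _ => ?_
          rw [smul_smul, mul_comm]
        intro z
        obtain ⟨q, hq⟩ : ∃ q : Fin d → ℚ, z = ∑ k, q k • b k := ⟨b.repr z, (b.sum_repr z).symm⟩
        rw [hq, hmulB, hmulA, hmulA, hmulB, mulVec_mulVec, mulVec_mulVec, hAB]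
      have hlamF : lam ∈ F := by
        have h1 := hop 1
        have h2 : Algebra.trace F K (1 : K) = (Module.finrank F K : F) := by
          have := Algebra.trace_algebraMap (S := K) (1 : F)
          rw [map_one] at this
          rw [this]
          simp
        rw [h2] at h1
        have h3 : ((Module.finrank F K : ℕ) : K) ≠ 0 := by
          have : 0 < Module.finrank F K := Module.finrank_pos
          exact_mod_cast this.ne'
        have h4 : lam = algebraMap F K (Algebra.trace F K (lam * 1)) * ((Module.finrank F K : ℕ) : K)⁻¹ := by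
          rw [← h1, map_natCast, mul_assoc, mul_inv_cancel₀ h3, mul_one]
        rw [h4]
        refine F.mul_mem ?_ (F.inv_mem ?_)
        · exact (Algebra.trace F K (lam * 1)).2
        · exact natCast_mem F _
      exact top_of_mem lam hinj F hlamF

end Pool.Agent.K3h4.OL
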