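import Mathlib
import Pool.Agent.K3h4.OL.Pre

/-! # The two stages -/

open NumberField Filter Topology H715R2 Matrix
open Pool.Agent.K3h4.OC

namespace Pool.Agent.K3h4.OL

variable {K : Type*} [Field K] [NumberField K] {d : ℕ}

lemma Dir.exists_W {D : Sys K d} (G : Dir D) {δ ν : ℝ} (hδ : 0 < δ) (hν : 0 < ν)
    (hnear : Near D.h D.I δ ν) (i : Fin d) : ∃ τ, G.W i τ ≠ 0 := by
  by_contra hcon
  push Not at hcon
  have hm : (Pi.single i 1 : Fin d → ℤ) ≠ 0 := by
    intro h0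
    have h1 := congrFun h0 i
    simp at h1
  have h1 := G.lower hδ hnear 1 (CC D.N G.e).one_mem (Pi.single i 1) hm
  have h2 : G.Lam i 1 (iR (Pi.single i 1)) = 0 := by
    unfold Dir.Lam
    exact Finset.sum_eq_zero fun τ _ => by rw [hcon τ, zero_mul, zero_mul]
  rw [Finset.prod_eq_zero (Finset.mem_univ i) (by rw [h2, norm_zero])] at h1
  exact absurd hν (not_lt.2 h1)

namespace Sys

variable (D : Sys K d)

lemma H_conj (i : Fin d) (τ : K →+* ℂ) :
    D.H i (ComplexEmbedding.conjugate τ) = (starRingEnd ℂ) (D.H i τ) :=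
  H_conj_gen D.b (fun j => D.h i j) (D.H i) (D.hH i) τ

lemma J_conj (τ : K →+* ℂ) (hτ : τ ∈ D.J) : ComplexEmbedding.conjugate τ ∈ D.J := by
  obtain ⟨i, hi, hne⟩ := (D.hJ τ).1 hτ
  refine (D.hJ _).2 ⟨i, hi, ?_⟩
  rw [D.H_conj]
  exact (map_ne_zero _).2 hne

lemma J_conj_iff (τ : K →+* ℂ) : ComplexEmbedding.conjugate τ ∈ D.J ↔ τ ∈ D.J := by
  constructor
  · intro h
    have h1 := D.J_conj _ h
    have h2 : ComplexEmbedding.conjugate (ComplexEmbedding.conjugate τ) = τ := star_involutive τ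
    rwa [h2] at h1
  · exact D.J_conj τ

/-- every embedding occurs in some row -/
lemma exists_row (τ0 : K →+* ℂ) : ∃ i, D.H i τ0 ≠ 0 := by
  classical
  by_contra hcon
  push Not at hcon
  obtain ⟨x, hx⟩ := embed_surj' D.b (fun τ => if τ = τ0 then 1 else 0)
  have h1 : (D.h.map (Complex.ofRealHom : ℝ →+* ℂ)) *ᵥ x = 0 := by
    funext i
    have h2 : ((D.h.map (Complex.ofRealHom : ℝ →+* ℂ)) *ᵥ x) i
        = ∑ τ : K →+* ℂ, D.H i τ * ∑ j, x j * τ (D.b j) := by
      simp only [mulVec, dotProduct, Matrix.map_apply, Complex.ofRealHom_eq_coe, D.hH,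
        Finset.sum_mul, Finset.mul_sum]
      rw [Finset.sum_comm]
      refine Finset.sum_congr rfl fun τ _ => Finset.sum_congr rfl fun j _ => ?_
      ring
    rw [h2]
    refine Finset.sum_eq_zero fun τ _ => ?_
    rw [hx]
    by_cases h3 : τ = τ0
    · rw [h3, hcon i, zero_mul]
    · rw [if_neg h3, mul_zero]
  have h4 : (D.h.map (Complex.ofRealHom : ℝ →+* ℂ)).det ≠ 0 := by
    have := (Complex.ofRealHom : ℝ →+* ℂ).map_det D.h
    rw [RingHom.mapMatrix_apply] at this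
    rw [← this]
    exact (map_ne_zero _).2 D.hdet
  have h5 := Matrix.eq_zero_of_mulVec_eq_zero h4 h1
  have h6 := hx τ0
  rw [h5, if_pos rfl] at h6
  simp at h6

lemma card_I_le : D.I.card ≤ d := by
  have := Finset.card_le_univ D.I
  simpa using this

open scoped Classical in
/-- the first direction -/
noncomputable def dir1 (hd : 0 < d) (τ₀ : K →+* ℂ) (hτ₀ : τ₀ ∉ D.J) : Dir D where
  e τ := if τ ∈ D.J then -((d : ℝ) - D.I.card) else D.I.card
  p w := if w.embedding ∈ D.J then -((d : ℝ) - D.I.card) else D.I.card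
  hp τ := by
    rcases InfinitePlace.embedding_mk_eq τ with h | h
    · rw [h]
    · rw [h]
      simp only [D.J_conj_iff]
  he := by
    rw [Finset.sum_ite]
    simp only [Finset.sum_const, nsmul_eq_mul]
    have h1 : (Finset.univ.filter fun τ : K →+* ℂ => τ ∈ D.J) = D.J := by ext; simp
    have h2 : (Finset.univ.filter fun τ : K →+* ℂ => τ ∉ D.J) = D.Jᶜ := by ext; simp
    rw [h1, h2, Finset.card_compl, D.card_emb, D.hcard, Nat.cast_sub D.card_I_le]
    ring
  E i := if i ∈ D.I then -((d : ℝ) - D.I.card) else D.I.card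
  hE i τ hH := by
    have h0 : (0 : ℝ) ≤ d := Nat.cast_nonneg d
    by_cases hi : i ∈ D.I
    · have hτ : τ ∈ D.J := (D.hJ τ).2 ⟨i, hi, hH⟩
      rw [if_pos hi, if_pos hτ]
    · rw [if_neg hi]
      split_ifs
      · linarith
      · exact le_rfl
  hEs := by
    rw [Finset.sum_ite]
    simp only [Finset.sum_const, nsmul_eq_mul]
    have h1 : (Finset.univ.filter fun i : Fin d => i ∈ D.I) = D.I := by ext; simp
    have h2 : (Finset.univ.filter fun i : Fin d => i ∉ D.I) = D.Iᶜ := by ext; simp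
    rw [h1, h2, Finset.card_compl, Fintype.card_fin, Nat.cast_sub D.card_I_le]
    ring
  τ₀ := τ₀
  hI i hi := by
    have h0 : (0 : ℝ) < d := by exact_mod_cast hd
    rw [if_pos hi, if_neg hτ₀]
    linarith

/-- **First stage.** The rows in `I` are multiples of single embeddings, the other ones are so
modulo the embeddings in `J`, and all embeddings are real. -/
theorem stage_one (hd : 0 < d) (hI : D.I.card < d) {δ ν : ℝ} (hδ : 0 < δ) (hν : 0 < ν)
    (hnear : Near D.h D.I δ ν) :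
    ∃ t : Fin d → (K →+* ℂ), Function.Bijective t ∧
      (∀ i, D.H i (t i) ≠ 0) ∧ (∀ i, t i ∈ D.J ↔ i ∈ D.I) ∧
      (∀ i τ, D.H i τ ≠ 0 → τ ≠ t i → i ∉ D.I ∧ τ ∈ D.J) ∧
      ∀ τ : K →+* ℂ, ComplexEmbedding.conjugate τ = τ := by
  classical
  obtain ⟨τ₀, hτ₀⟩ : ∃ τ₀, τ₀ ∉ D.J := by
    by_contra hcon
    push Not at hcon
    have h1 : D.J = Finset.univ := Finset.eq_univ_of_forall hcon
    have h2 := D.hcard
    rw [h1, Finset.card_univ, D.card_emb] at h2
    omega
  obtain ⟨G, hG⟩ : ∃ G, G = D.dir1 hd τ₀ hτ₀ := ⟨_, rfl⟩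
  have hdR : (0 : ℝ) < d := by exact_mod_cast hd
  have heq : ∀ i τ, D.H i τ ≠ 0 → (G.e τ = G.E i ↔ (τ ∈ D.J ↔ i ∈ D.I)) := by
    intro i τ _
    rw [hG]
    simp only [dir1]
    by_cases hi : i ∈ D.I <;> by_cases hτ : τ ∈ D.J
    · simp [hi, hτ]
    · rw [if_pos hi, if_neg hτ]
      constructor
      · intro h; exfalso; linarith
      · intro h; exact absurd (h.2 hi) hτ
    · rw [if_neg hi, if_pos hτ]
      constructor
      · intro h; exfalso; linarith
      · intro h; exact absurd (h.1 hτ) hi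
    · simp [hi, hτ]
  have hsep : ∀ τ τ' : K →+* ℂ, τ ≠ τ' → ∃ η ∈ tang (CC D.N G.e), η τ ≠ η τ' := by
    intro τ τ' hne
    refine separation D.N D.hN G.e G.p G.hp G.he D.J ?_ D.hF τ τ' hne
    intro φ hφ ψ hψ
    by_contra hcon
    rw [hG] at hψ
    simp only [dir1] at hψ
    rw [if_pos hφ, if_neg hcon] at hψ
    linarith
  choose t ht using fun i => G.exists_W hδ hν hnear i
  have hWH : ∀ i τ, G.W i τ ≠ 0 → D.H i τ ≠ 0 ∧ G.e τ = G.E i := by
    intro i τ h
    unfold Dir.W at h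
    by_cases he : G.e τ = G.E i
    · rw [if_pos he] at h
      exact ⟨h, he⟩
    · rw [if_neg he] at h
      exact absurd rfl h
  have htJ : ∀ i, t i ∈ D.J ↔ i ∈ D.I := fun i =>
    (heq i (t i) (hWH i _ (ht i)).1).1 (hWH i _ (ht i)).2
  have huniq : ∀ i τ, D.H i τ ≠ 0 → (τ ∈ D.J ↔ i ∈ D.I) → τ = t i := by
    intro i τ hH hJI
    by_contra hne
    obtain ⟨η, hη, hητ⟩ := hsep τ (t i) hne
    have hW : G.W i τ ≠ 0 := by
      unfold Dir.W
      rw [if_pos ((heq i τ hH).2 hJI)]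
      exact hH
    exact G.single hδ hν hnear i τ (t i) hW (ht i) η hη hητ
  have hsurj : Function.Surjective t := by
    intro τ
    by_cases hτ : τ ∈ D.J
    · obtain ⟨i, hi, hH⟩ := (D.hJ τ).1 hτ
      exact ⟨i, (huniq i τ hH ⟨fun _ => hi, fun _ => hτ⟩).symm⟩
    · obtain ⟨i, hH⟩ := D.exists_row τ
      have hi : i ∉ D.I := fun hi => hτ ((D.hJ τ).2 ⟨i, hi, hH⟩)
      exact ⟨i, (huniq i τ hH ⟨fun h => absurd h hτ, fun h => absurd h hi⟩).symm⟩
  refine ⟨t, ?_, fun i => (hWH i _ (ht i)).1, htJ, ?_, ?_⟩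
  · rw [Fintype.bijective_iff_surjective_and_card]
    exact ⟨hsurj, by rw [Fintype.card_fin, D.card_emb]⟩
  · intro i τ hH hne
    have h1 : ¬ (τ ∈ D.J ↔ i ∈ D.I) := fun h => hne (huniq i τ hH h)
    have h2 : i ∈ D.I → τ ∈ D.J := fun hi => (D.hJ τ).2 ⟨i, hi, hH⟩
    by_cases hi : i ∈ D.I
    · exact absurd ⟨fun _ => hi, h2⟩ h1
    · refine ⟨hi, ?_⟩
      by_contra hτ
      exact h1 ⟨fun h => absurd h hτ, fun h => absurd h hi⟩
  · intro τ
    obtain ⟨i, rfl⟩ := hsurj τ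
    refine huniq i _ ?_ ?_
    · rw [D.H_conj]
      exact (map_ne_zero _).2 (hWH i _ (ht i)).1
    · rw [D.J_conj_iff]
      exact htJ i

/-- **Second stage.** If at least two embeddings are outside `J`, all rows are multiples of single
embeddings. -/
theorem stage_two (hI : D.I.card + 2 ≤ d) {δ ν : ℝ} (hδ : 0 < δ) (hν : 0 < ν)
    (hnear : Near D.h D.I δ ν) (t : Fin d → (K →+* ℂ)) (ht : Function.Bijective t)
    (ht0 : ∀ i, D.H i (t i) ≠ 0) (htJ : ∀ i, t i ∈ D.J ↔ i ∈ D.I)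
    (hsupp : ∀ i τ, D.H i τ ≠ 0 → τ ≠ t i → i ∉ D.I ∧ τ ∈ D.J)
    (hreal : ∀ τ : K →+* ℂ, ComplexEmbedding.conjugate τ = τ) :
    ∀ i τ, τ ≠ t i → D.H i τ = 0 := by
  classical
  intro i j hne
  by_contra hH
  obtain ⟨hi, hj⟩ := hsupp i j hH hne
  obtain ⟨k, hk⟩ : ∃ k, k = t i := ⟨_, rfl⟩
  rw [← hk] at hne
  have hkJ : k ∉ D.J := by rw [hk, htJ]; exact hi
  obtain ⟨l, hlJ, hlk⟩ : ∃ l, l ∉ D.J ∧ l ≠ k := by
    have h1 : 1 < (D.Jᶜ).card := by
      rw [Finset.card_compl, D.card_emb, D.hcard]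
      omega
    obtain ⟨l, hl, hlk⟩ := Finset.exists_mem_ne h1 k
    exact ⟨l, Finset.mem_compl.1 hl, hlk⟩
  have hd : 0 < d := by omega
  have hdR : (0 : ℝ) < d := by exact_mod_cast hd
  obtain ⟨base, hbase⟩ : ∃ base : (K →+* ℂ) → ℝ, ∀ τ, base τ = if τ = l then 2 else
      if τ = j ∨ τ = k then 0 else if τ ∈ D.J then -1 else 1 := ⟨_, fun τ => rfl⟩
  have hbl : base l = 2 := by rw [hbase, if_pos rfl]
  have hbk : base k = 0 := by rw [hbase, if_neg hlk.symm, if_pos (Or.inr rfl)]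
  have hbj : base j = 0 := by
    rw [hbase, if_neg, if_pos (Or.inl rfl)]
    rintro rfl
    exact hlJ hj
  have hbJ : ∀ τ ∈ D.J, base τ ≤ 0 := by
    intro τ hτ
    rw [hbase, if_neg (by rintro rfl; exact hlJ hτ)]
    split_ifs <;> norm_num
  have hbJc : ∀ τ, τ ∉ D.J → 0 ≤ base τ := by
    intro τ hτ
    rw [hbase]
    split_ifs <;> norm_num
  have hblu : ∀ τ, base τ = 2 → τ = l := by
    intro τ h
    by_contra hτ
    rw [hbase, if_neg hτ] at h
    split_ifs at h <;> norm_num at h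
  obtain ⟨μ, hμ⟩ : ∃ μ : ℝ, μ = (∑ τ : K →+* ℂ, base τ) / d := ⟨_, rfl⟩
  have hsum : ∑ τ : K →+* ℂ, (base τ - μ) = 0 := by
    rw [Finset.sum_sub_distrib, Finset.sum_const, nsmul_eq_mul, Finset.card_univ, D.card_emb, hμ]
    field_simp
    ring
  obtain ⟨G, hGe, hGE⟩ : ∃ G : Dir D, (∀ τ, G.e τ = base τ - μ) ∧
      ∀ i, G.E i = base (t i) - μ := by
    refine ⟨{ e := fun τ => base τ - μ
              p := fun w => base w.embedding - μ
              hp := ?_
              he := hsum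
              E := fun i => base (t i) - μ
              hE := ?_
              hEs := ?_
              τ₀ := l
              hI := ?_ }, fun τ => rfl, fun i => rfl⟩
    · intro τ
      rcases InfinitePlace.embedding_mk_eq τ with h | h
      · rw [h]
      · rw [h, hreal]
    · intro i' τ hH'
      by_cases h1 : τ = t i'
      · rw [h1]
      · obtain ⟨h2, h3⟩ := hsupp i' τ hH' h1
        have h4 := hbJ τ h3
        have h5 := hbJc (t i') (by rw [htJ]; exact h2)
        linarith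
    · rw [ht.sum_comp (fun τ => base τ - μ)]
      exact hsum
    · intro i' hi'
      have h1 := hbJ (t i') ((htJ i').2 hi')
      rw [hbl]
      linarith
  obtain ⟨η, hη, hητ⟩ := separation D.N D.hN G.e G.p G.hp G.he {l} (by
      intro φ hφ ψ hψ
      rw [Finset.mem_singleton] at hφ ⊢
      rw [hφ, hGe, hGe, hbl] at hψ
      exact hblu ψ (by linarith))
    (top_of_coprime {l} (by rw [Finset.card_singleton]; exact Nat.coprime_one_left _)) j k hne
  refine G.single hδ hν hnear i j k ?_ ?_ η hη hητ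
  · unfold Dir.W
    rw [if_pos]
    · exact hH
    · rw [hGe, hGE, hbj, ← hk, hbk]
  · unfold Dir.W
    rw [if_pos]
    · rw [hk]; exact ht0 i
    · rw [hGe, hGE, ← hk]

end Sys

end Pool.Agent.K3h4.OL
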