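import Mathlib
import Pool.Agent.K3h4.OL.Stages

/-! # Lower bounds, and the equivalence -/

open NumberField Filter Topology H715R2 Matrix
open Pool.Agent.K3h4.OC

namespace Pool.Agent.K3h4.OL

namespace Sys

variable {K : Type*} [Field K] [NumberField K] {d : ℕ} (D : Sys K d)

theorem norm_lower : ∃ c : ℝ, 0 < c ∧ ∀ p : Fin d → ℤ, p ≠ 0 →
    c ≤ ∏ τ : K →+* ℂ, ‖ev D.b τ (iR p)‖ := by
  classical
  obtain ⟨n, hn, hint⟩ := exists_int_mult K (fun j => D.b j)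
  have hnR : (0 : ℝ) < n := by exact_mod_cast hn
  refine ⟨(1 / (n : ℝ)) ^ d, by positivity, fun p hp => ?_⟩
  obtain ⟨z, hz⟩ : ∃ z : K, z = ∑ j, (p j : ℚ) • D.b j := ⟨_, rfl⟩
  have hz0 : z ≠ 0 := by
    intro h0
    apply hp
    rw [hz] at h0
    have h2 := Fintype.linearIndependent_iff.1 D.b.linearIndependent (fun j => (p j : ℚ)) h0
    funext j
    exact_mod_cast h2 j
  have h1 : IsIntegral ℤ (Algebra.norm ℚ ((n : K) * z)) :=
    Algebra.isIntegral_norm ℚ (by rw [hz]; exact hint p)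
  obtain ⟨m, hm⟩ := IsIntegrallyClosed.isIntegral_iff.1 h1
  have hnK : (n : K) ≠ 0 := by exact_mod_cast hn.ne'
  have hm0 : m ≠ 0 := by
    rintro rfl
    rw [map_zero] at hm
    exact mul_ne_zero hnK hz0 (Algebra.norm_eq_zero_iff.1 hm.symm)
  have h2 : ((Algebra.norm ℚ ((n : K) * z) : ℚ) : ℂ) = ∏ τ : K →+* ℂ, τ ((n : K) * z) := by
    have h3 := Algebra.norm_eq_prod_embeddings ℚ ℂ ((n : K) * z)
    rw [eq_ratCast] at h3
    rw [h3, ← Fintype.prod_equiv (RingHom.equivRatAlgHom K ℂ) (fun f => f ((n : K) * z))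
      (fun φ => φ ((n : K) * z)) fun _ => by simp [RingHom.equivRatAlgHom_apply]]
  have h3 : ∀ τ : K →+* ℂ, ‖τ ((n : K) * z)‖ = (n : ℝ) * ‖ev D.b τ (iR p)‖ := by
    intro τ
    rw [map_mul, map_intCast, norm_mul, ev_int, ← hz]
    congr 1
    rw [Complex.norm_intCast, abs_of_pos hnR]
  have h4 : (1 : ℝ) ≤ (n : ℝ) ^ d * ∏ τ : K →+* ℂ, ‖ev D.b τ (iR p)‖ := by
    have h5 : ‖((Algebra.norm ℚ ((n : K) * z) : ℚ) : ℂ)‖ =
        (n : ℝ) ^ d * ∏ τ : K →+* ℂ, ‖ev D.b τ (iR p)‖ := by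
      rw [h2, norm_prod, Finset.prod_congr rfl fun τ _ => h3 τ, Finset.prod_mul_distrib,
        Finset.prod_const, Finset.card_univ, D.card_emb]
    rw [← h5, ← hm]
    have h6 : ‖(((algebraMap ℤ ℚ) m : ℚ) : ℂ)‖ = |(m : ℝ)| := by
      rw [eq_intCast, Rat.cast_intCast, Complex.norm_intCast]
    rw [h6]
    have : (1 : ℤ) ≤ |m| := Int.one_le_abs hm0
    exact_mod_cast this
  rw [one_div, inv_pow, inv_le_iff_one_le_mul₀ (by positivity)]
  linarith

lemma mono_ne (i : Fin d) (τ₁ : K →+* ℂ) (hm : ∀ τ, τ ≠ τ₁ → D.H i τ = 0) : D.H i τ₁ ≠ 0 := by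
  intro h0
  apply D.hdet
  refine Matrix.det_eq_zero_of_row_eq_zero i fun j => ?_
  have h1 : (D.h i j : ℂ) = 0 := by
    rw [D.hH]
    refine Finset.sum_eq_zero fun τ _ => ?_
    by_cases h : τ = τ₁
    · rw [h, h0, zero_mul]
    · rw [hm τ h, zero_mul]
  exact_mod_cast h1

lemma mono_abs (i : Fin d) (τ₁ : K →+* ℂ) (hm : ∀ τ, τ ≠ τ₁ → D.H i τ = 0) (x : Fin d → ℝ) :
    |∑ j, D.h i j * x j| = ‖D.H i τ₁‖ * ‖ev D.b τ₁ x‖ := by
  have h1 := D.lin i x
  rw [Finset.sum_eq_single τ₁ (fun τ _ h => by rw [hm τ h, zero_mul]) (by simp)] at h1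
  rw [← norm_mul, ← h1, Complex.norm_real, Real.norm_eq_abs]

theorem lower_all (t : Fin d → (K →+* ℂ)) (ht : Function.Bijective t)
    (hm : ∀ i τ, τ ≠ t i → D.H i τ = 0) :
    ∃ ν : ℝ, 0 < ν ∧ ∀ p : Fin d → ℤ, p ≠ 0 → ν ≤ |FF D.h (iR p)| := by
  obtain ⟨c, hc, hlow⟩ := D.norm_lower
  have hpos : 0 < ∏ i, ‖D.H i (t i)‖ :=
    Finset.prod_pos fun i _ => norm_pos_iff.2 (D.mono_ne i (t i) (hm i))
  refine ⟨(∏ i, ‖D.H i (t i)‖) * c, mul_pos hpos hc, fun p hp => ?_⟩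
  rw [FF, Finset.abs_prod, Finset.prod_congr rfl fun i _ => D.mono_abs i (t i) (hm i) (iR p),
    Finset.prod_mul_distrib, ht.prod_comp (fun τ => ‖ev D.b τ (iR p)‖)]
  exact mul_le_mul_of_nonneg_left (hlow p hp) hpos.le

/-- the coordinates of a vector are bounded by the values of the forms -/
lemma sum_le (hd : 0 < d) : ∃ C : ℝ, 0 < C ∧ ∀ p : Fin d → ℤ,
    ∑ j, |(p j : ℝ)| ≤ C * ∑ i, |∑ j, D.h i j * iR p j| := by
  refine ⟨1 + ∑ j, ∑ i, |D.h⁻¹ j i|, ?_, fun p => ?_⟩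
  · have : 0 ≤ ∑ j, ∑ i, |D.h⁻¹ j i| :=
      Finset.sum_nonneg fun _ _ => Finset.sum_nonneg fun _ _ => abs_nonneg _
    linarith
  · obtain ⟨y, hy⟩ : ∃ y : Fin d → ℝ, y = D.h *ᵥ iR p := ⟨_, rfl⟩
    have h1 : iR p = D.h⁻¹ *ᵥ y := by
      rw [hy, mulVec_mulVec, Matrix.nonsing_inv_mul _ (isUnit_iff_ne_zero.2 D.hdet), one_mulVec]
    have hyi : ∀ i, ∑ j, D.h i j * iR p j = y i := fun i => by rw [hy]; rfl
    simp only [hyi]
    have h2 : ∀ i, |y i| ≤ ∑ i, |y i| := fun i =>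
      Finset.single_le_sum (f := fun i => |y i|) (fun _ _ => abs_nonneg _) (Finset.mem_univ i)
    have h3 : ∀ j, |(p j : ℝ)| ≤ (∑ i, |D.h⁻¹ j i|) * ∑ i, |y i| := by
      intro j
      have h4 : (p j : ℝ) = ∑ i, D.h⁻¹ j i * y i := by
        have := congrFun h1 j
        exact this
      rw [h4, Finset.sum_mul]
      refine (Finset.abs_sum_le_sum_abs _ _).trans (Finset.sum_le_sum fun i _ => ?_)
      rw [abs_mul]
      exact mul_le_mul_of_nonneg_left (h2 i) (abs_nonneg _)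
    have h5 : 0 ≤ ∑ i, |y i| := Finset.sum_nonneg fun _ _ => abs_nonneg _
    calc ∑ j, |(p j : ℝ)| ≤ ∑ j, (∑ i, |D.h⁻¹ j i|) * ∑ i, |y i| :=
          Finset.sum_le_sum fun j _ => h3 j
      _ = (∑ j, ∑ i, |D.h⁻¹ j i|) * ∑ i, |y i| := by rw [Finset.sum_mul]
      _ ≤ (1 + ∑ j, ∑ i, |D.h⁻¹ j i|) * ∑ i, |y i| :=
          mul_le_mul_of_nonneg_right (by linarith) h5

theorem lower_line (hd : 0 < d) (k : Fin d) (t : Fin d → (K →+* ℂ)) (ht : Function.Bijective t)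
    (hm : ∀ i, i ≠ k → ∀ τ, τ ≠ t i → D.H i τ = 0) :
    ∃ δ : ℝ, 0 < δ ∧ ∃ ν : ℝ, 0 < ν ∧ Near D.h (Finset.univ.erase k) δ ν := by
  classical
  obtain ⟨c, hc, hlow⟩ := D.norm_lower
  obtain ⟨C, hC, hsum⟩ := D.sum_le hd
  obtain ⟨B, hB, hev⟩ := D.ev_le (t k)
  have hdR : (0 : ℝ) < d := by exact_mod_cast hd
  have hpos : 0 < ∏ i ∈ Finset.univ.erase k, ‖D.H i (t i)‖ :=
    Finset.prod_pos fun i hi => norm_pos_iff.2 (D.mono_ne i (t i) (hm i (Finset.mem_erase.1 hi).1))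
  refine ⟨1 / (2 * C * d), by positivity,
    (1 / (2 * C * B)) * (∏ i ∈ Finset.univ.erase k, ‖D.H i (t i)‖) * c, by positivity, ?_⟩
  intro p hp hnear
  obtain ⟨S, hS⟩ : ∃ S : ℝ, S = ∑ j, |(p j : ℝ)| := ⟨_, rfl⟩
  have hS0 : 0 ≤ S := by rw [hS]; exact Finset.sum_nonneg fun _ _ => abs_nonneg _
  rw [← hS] at hnear
  have h1 : S ≤ 2 * C * |∑ j, D.h k j * iR p j| := by
    have h2 := hsum p
    rw [← hS, ← Finset.add_sum_erase Finset.univ _ (Finset.mem_univ k)] at h2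
    have h3 : ∑ i ∈ Finset.univ.erase k, |∑ j, D.h i j * iR p j| ≤ S / (2 * C) := by
      calc ∑ i ∈ Finset.univ.erase k, |∑ j, D.h i j * iR p j|
          ≤ ∑ i ∈ Finset.univ.erase k, (1 / (2 * C * d) * S) := Finset.sum_le_sum hnear
        _ = ((Finset.univ.erase k).card : ℝ) * (1 / (2 * C * d) * S) := by
            rw [Finset.sum_const, nsmul_eq_mul]
        _ ≤ (d : ℝ) * (1 / (2 * C * d) * S) := by
            refine mul_le_mul_of_nonneg_right ?_ (by positivity)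
            have h4 := Finset.card_le_univ (Finset.univ.erase k)
            rw [Fintype.card_fin] at h4
            exact_mod_cast h4
        _ = S / (2 * C) := by field_simp
    have h5 : C * (∑ i ∈ Finset.univ.erase k, |∑ j, D.h i j * iR p j|) ≤ C * (S / (2 * C)) :=
      mul_le_mul_of_nonneg_left h3 hC.le
    have h6 : C * (S / (2 * C)) = S / 2 := by field_simp
    rw [mul_add] at h2
    linarith
  have h2 : ‖ev D.b (t k) (iR p)‖ ≤ 2 * C * B * |∑ j, D.h k j * iR p j| := by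
    refine (hev p).trans ?_
    rw [← hS]
    calc B * S ≤ B * (2 * C * |∑ j, D.h k j * iR p j|) := mul_le_mul_of_nonneg_left h1 hB.le
      _ = 2 * C * B * |∑ j, D.h k j * iR p j| := by ring
  have h3 : (1 / (2 * C * B)) * ‖ev D.b (t k) (iR p)‖ ≤ |∑ j, D.h k j * iR p j| := by
    rw [one_div, inv_mul_le_iff₀ (by positivity)]
    exact h2
  rw [FF, Finset.abs_prod, ← Finset.mul_prod_erase Finset.univ _ (Finset.mem_univ k),
    Finset.prod_congr rfl fun i hi =>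
      D.mono_abs i (t i) (hm i (Finset.mem_erase.1 hi).1) (iR p), Finset.prod_mul_distrib]
  have h4 : ∏ τ : K →+* ℂ, ‖ev D.b τ (iR p)‖ =
      ‖ev D.b (t k) (iR p)‖ * ∏ i ∈ Finset.univ.erase k, ‖ev D.b (t i) (iR p)‖ := by
    rw [Finset.mul_prod_erase Finset.univ (fun i => ‖ev D.b (t i) (iR p)‖) (Finset.mem_univ k),
      ht.prod_comp (fun τ => ‖ev D.b τ (iR p)‖)]
  have h5 := hlow p hp
  rw [h4] at h5
  have h6 : 0 ≤ ∏ i ∈ Finset.univ.erase k, ‖ev D.b (t i) (iR p)‖ :=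
    Finset.prod_nonneg fun _ _ => norm_nonneg _
  calc (1 / (2 * C * B)) * (∏ i ∈ Finset.univ.erase k, ‖D.H i (t i)‖) * c
      ≤ (1 / (2 * C * B)) * (∏ i ∈ Finset.univ.erase k, ‖D.H i (t i)‖) *
        (‖ev D.b (t k) (iR p)‖ * ∏ i ∈ Finset.univ.erase k, ‖ev D.b (t i) (iR p)‖) :=
        mul_le_mul_of_nonneg_left h5 (by positivity)
    _ = ((1 / (2 * C * B)) * ‖ev D.b (t k) (iR p)‖) *
        ((∏ i ∈ Finset.univ.erase k, ‖D.H i (t i)‖) *
          ∏ i ∈ Finset.univ.erase k, ‖ev D.b (t i) (iR p)‖) := by ring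
    _ ≤ _ := mul_le_mul_of_nonneg_right h3 (mul_nonneg hpos.le h6)

/-- the eigenvalue relation for the evaluation -/
lemma ev_mul {A : Matrix (Fin d) (Fin d) ℚ} {lam : K}
    (hlam : ∀ k, ∑ j, (A j k) • D.b j = lam * D.b k) (τ : K →+* ℂ) (x : Fin d → ℝ) :
    ev D.b τ ((A.map (Rat.cast : ℚ → ℝ)) *ᵥ x) = τ lam * ev D.b τ x := by
  have hev : ∀ k, ∑ j, (A j k : ℂ) * τ (D.b j) = τ lam * τ (D.b k) := by
    intro k
    rw [← map_mul, ← hlam k, map_sum]
    refine Finset.sum_congr rfl fun j _ => ?_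
    rw [Algebra.smul_def, map_mul]
    simp
  have h2 : ev D.b τ ((A.map (Rat.cast : ℚ → ℝ)) *ᵥ x) =
      ∑ k, (x k : ℂ) * ∑ j, (A j k : ℂ) * τ (D.b j) := by
    unfold ev
    simp only [Matrix.mulVec, dotProduct, Matrix.map_apply]
    push_cast
    simp only [Finset.sum_mul, Finset.mul_sum]
    rw [Finset.sum_comm]
    refine Finset.sum_congr rfl fun k _ => Finset.sum_congr rfl fun j _ => ?_
    ring
  rw [h2, ev, Finset.mul_sum]
  refine Finset.sum_congr rfl fun k _ => ?_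
  rw [hev]
  ring

/-- a row which is a multiple of one embedding has an invariant kernel -/
lemma pres_of_mono {A : Matrix (Fin d) (Fin d) ℚ} {lam : K}
    (hlam : ∀ k, ∑ j, (A j k) • D.b j = lam * D.b k) (i : Fin d) (τ₁ : K →+* ℂ)
    (hm : ∀ τ, τ ≠ τ₁ → D.H i τ = 0) : Pres D.h {i} A := by
  intro x hx i' hi'
  rw [Finset.mem_singleton] at hi'
  rw [hi']
  have h0 := hx i (Finset.mem_singleton_self i)
  have h1 := D.lin i x
  have h2 := D.lin i ((A.map (Rat.cast : ℚ → ℝ)) *ᵥ x)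
  rw [Finset.sum_eq_single τ₁ (fun τ _ h => by rw [hm τ h, zero_mul]) (by simp)] at h1 h2
  rw [D.ev_mul hlam] at h2
  have h3 : (∑ j, D.h i j * x j : ℝ) = 0 := h0
  rw [h3, Complex.ofReal_zero] at h1
  have h4 : D.H i τ₁ * (τ₁ lam * ev D.b τ₁ x) = 0 := by
    linear_combination (-(τ₁ lam)) * h1
  rw [h4] at h2
  exact_mod_cast h2

/-- a row with an invariant kernel is a multiple of one embedding -/
lemma mono_of_pres {A : Matrix (Fin d) (Fin d) ℚ} {lam : K}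
    (hlam : ∀ k, ∑ j, (A j k) • D.b j = lam * D.b k)
    (hinj : Function.Injective (fun τ : K →+* ℂ => τ lam)) (i : Fin d)
    (hp : Pres D.h {i} A) : ∃ τ₁, ∀ τ, τ ≠ τ₁ → D.H i τ = 0 := by
  classical
  obtain ⟨c, hc⟩ := rows_invariant D.hdet {i} hp
  have h0 := hc i (Finset.mem_singleton_self i)
  simp only [Finset.sum_singleton] at h0
  have hev : ∀ (τ : K →+* ℂ) k, ∑ j, (A j k : ℂ) * τ (D.b j) = τ lam * τ (D.b k) := by
    intro τ k
    rw [← map_mul, ← hlam k, map_sum]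
    refine Finset.sum_congr rfl fun j _ => ?_
    rw [Algebra.smul_def, map_mul]
    simp
  have h1 := embed_indep D.b (fun τ => D.H i τ * τ lam - (c i i : ℂ) * D.H i τ) (by
    intro k
    have h3 : (((D.h * A.map (Rat.cast : ℚ → ℝ)) i k : ℝ) : ℂ) =
        ∑ τ : K →+* ℂ, D.H i τ * τ lam * τ (D.b k) := by
      rw [Matrix.mul_apply]
      push_cast
      simp only [Matrix.map_apply, D.hH i, Finset.sum_mul]
      rw [Finset.sum_comm]
      refine Finset.sum_congr rfl fun σ _ => ?_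
      rw [mul_assoc, ← hev σ k, Finset.mul_sum]
      refine Finset.sum_congr rfl fun j _ => ?_
      push_cast
      ring
    have h4 : ((c i i * D.h i k : ℝ) : ℂ) =
        ∑ τ : K →+* ℂ, (c i i : ℂ) * D.H i τ * τ (D.b k) := by
      push_cast
      rw [D.hH, Finset.mul_sum]
      exact Finset.sum_congr rfl fun τ _ => by ring
    simp only [sub_mul, Finset.sum_sub_distrib]
    rw [← h3, ← h4, h0 k, sub_self])
  obtain ⟨τ₁, hτ₁⟩ : ∃ τ₁, D.H i τ₁ ≠ 0 := by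
    by_contra hcon
    push Not at hcon
    apply D.hdet
    refine Matrix.det_eq_zero_of_row_eq_zero i fun j => ?_
    have h1 := D.hH i j
    rw [Finset.sum_eq_zero (fun τ _ => by rw [hcon τ, zero_mul])] at h1
    exact_mod_cast h1
  have h2 : ∀ τ, D.H i τ ≠ 0 → τ lam = (c i i : ℂ) := by
    intro τ hτ
    have h3 := congrFun h1 τ
    simp only [Pi.zero_apply] at h3
    have h4 : D.H i τ * (τ lam - (c i i : ℂ)) = 0 := by linear_combination h3
    exact sub_eq_zero.1 ((mul_eq_zero.1 h4).resolve_left hτ)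
  refine ⟨τ₁, fun τ hne => ?_⟩
  by_contra hτ
  exact hne (hinj ((h2 τ hτ).trans (h2 τ₁ hτ₁).symm))

/-- the roots of the characteristic polynomial are the conjugates of `lam` -/
lemma root_eq {A : Matrix (Fin d) (Fin d) ℚ} {lam : K}
    (hlam : ∀ k, ∑ j, (A j k) • D.b j = lam * D.b k) (z : ℂ)
    (hz : Polynomial.aeval z A.charpoly = 0) : ∃ τ : K →+* ℂ, z = τ lam := by
  classical
  have hdet : (Matrix.scalar (Fin d) z - A.map (algebraMap ℚ ℂ)).det = 0 := by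
    rw [← Matrix.eval_charpoly, Matrix.charpoly_map, Polynomial.eval_map_algebraMap]
    exact hz
  obtain ⟨x, hx0, hx⟩ := Matrix.exists_mulVec_eq_zero_iff.2 hdet
  have hxk : ∀ j, ∑ k, (A j k : ℂ) * x k = z * x j := by
    intro j
    have h1 := congrFun hx j
    rw [Matrix.sub_mulVec, Pi.sub_apply, Pi.zero_apply, sub_eq_zero] at h1
    have h2 : (Matrix.scalar (Fin d) z *ᵥ x) j = z * x j := by
      simp [Matrix.mulVec, dotProduct, Matrix.scalar_apply, Matrix.diagonal_apply]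
    rw [h2] at h1
    rw [h1, Matrix.mulVec, dotProduct]
    rfl
  have hev : ∀ (τ : K →+* ℂ) k, ∑ j, (A j k : ℂ) * τ (D.b j) = τ lam * τ (D.b k) := by
    intro τ k
    rw [← map_mul, ← hlam k, map_sum]
    refine Finset.sum_congr rfl fun j _ => ?_
    rw [Algebra.smul_def, map_mul]
    simp
  -- some embedding does not vanish on `x`
  obtain ⟨τ, hτ⟩ : ∃ τ : K →+* ℂ, ∑ j, x j * τ (D.b j) ≠ 0 := by
    by_contra hcon
    push Not at hcon
    apply hx0
    funext j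
    obtain ⟨c, hc⟩ := embed_surj D.b (Pi.single j (1 : ℂ))
    have h1 : x j = ∑ j', x j' * (Pi.single j (1 : ℂ) : Fin d → ℂ) j' := by
      rw [Finset.sum_eq_single j]
      · simp
      · intro j' _ hj'; simp [hj']
      · simp
    rw [h1, Pi.zero_apply]
    simp only [hc, Finset.mul_sum]
    rw [Finset.sum_comm]
    refine Finset.sum_eq_zero fun τ _ => ?_
    have h2 : ∀ j', x j' * (c τ * τ (D.b j')) = c τ * (x j' * τ (D.b j')) := fun j' => by ring
    rw [Finset.sum_congr rfl fun j' _ => h2 j', ← Finset.mul_sum, hcon τ, mul_zero]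
  refine ⟨τ, ?_⟩
  have h1 : ∑ j, (∑ k, (A j k : ℂ) * x k) * τ (D.b j) = τ lam * ∑ j, x j * τ (D.b j) := by
    have h2 : ∑ j, (∑ k, (A j k : ℂ) * x k) * τ (D.b j) =
        ∑ k, x k * ∑ j, (A j k : ℂ) * τ (D.b j) := by
      simp only [Finset.sum_mul, Finset.mul_sum]
      rw [Finset.sum_comm]
      refine Finset.sum_congr rfl fun k _ => Finset.sum_congr rfl fun j _ => ?_
      ring
    rw [h2, Finset.mul_sum]
    refine Finset.sum_congr rfl fun k _ => ?_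
    rw [hev]
    ring
  have h3 : ∑ j, (∑ k, (A j k : ℂ) * x k) * τ (D.b j) = z * ∑ j, x j * τ (D.b j) := by
    rw [Finset.mul_sum]
    refine Finset.sum_congr rfl fun j _ => ?_
    rw [hxk]
    ring
  rw [h3] at h1
  exact mul_right_cancel₀ hτ h1

end Sys

end Pool.Agent.K3h4.OL
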