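import Mathlib
import Pool.Agent.K3h4.OC.Semi
import Pool.Agent.K3h4.OL.Dir

/-! # Semistability under the local hypothesis -/

open Filter Topology H715R2 Matrix
open Pool.Agent.K3h4.OC

namespace Pool.Agent.K3h4.OL

variable {d : ℕ}

lemma one_le_sum {p : Fin d → ℤ} (hp : p ≠ 0) : (1 : ℝ) ≤ ∑ j, |(p j : ℝ)| := by
  obtain ⟨j, hj⟩ : ∃ j, p j ≠ 0 := by
    by_contra hcon
    push Not at hcon
    exact hp (funext hcon)
  have h1 : (1 : ℝ) ≤ |(p j : ℝ)| := by
    have : (1 : ℤ) ≤ |p j| := Int.one_le_abs hj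
    exact_mod_cast this
  exact h1.trans (Finset.single_le_sum (f := fun j => |(p j : ℝ)|) (fun _ _ => abs_nonneg _)
    (Finset.mem_univ j))

/-- For a rational subspace of dimension `k` the rank `r` of the forms in `I` on it satisfies
`k |I| ≤ r d`. -/
theorem semistable (h : Matrix (Fin d) (Fin d) ℝ) (hdet : h.det ≠ 0)
    (δ ν : ℝ) (hδ : 0 < δ) (hν : 0 < ν) (I : Finset (Fin d)) (hnear : Near h I δ ν)
    {k : ℕ} (hk : 0 < k)
    (U : Matrix (Fin d) (Fin k) ℤ) (Y : Matrix (Fin k) (Fin d) ℝ)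
    (hYU : Y * U.map (Int.cast : ℤ → ℝ) = 1) :
    k * I.card ≤ Module.finrank ℝ (Submodule.span ℝ
      ((fun i => (h * U.map (Int.cast : ℤ → ℝ)) i) '' (I : Set (Fin d)))) * d := by
  classical
  by_contra hcon
  rw [not_le] at hcon
  obtain ⟨P, hP⟩ : ∃ P : Fin d → (Fin k → ℝ), P = fun i => (h * U.map (Int.cast : ℤ → ℝ)) i :=
    ⟨_, rfl⟩
  rw [← hP] at hcon
  -- the rows span everything
  have hspan : ∀ z : Fin k → ℝ, z ∈ Submodule.span ℝ (P '' Set.univ) := by
    intro z
    have h1 : z = (z ᵥ* (Y * h⁻¹)) ᵥ* (h * U.map (Int.cast : ℤ → ℝ)) := by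
      rw [vecMul_vecMul, Matrix.mul_assoc, ← Matrix.mul_assoc h⁻¹,
        Matrix.nonsing_inv_mul _ (isUnit_iff_ne_zero.2 hdet), Matrix.one_mul, hYU, vecMul_one]
    rw [h1, Matrix.vecMul_eq_sum]
    refine Submodule.sum_mem _ fun i _ => Submodule.smul_mem _ _ (Submodule.subset_span ?_)
    exact ⟨i, Set.mem_univ i, by rw [hP]⟩
  obtain ⟨I1, hI1, -, hsp1, hli1⟩ := exists_linearIndepOn_extension (K := ℝ) (v := P)
    (linearIndepOn_empty ℝ P) (Set.empty_subset (I : Set (Fin d)))
  obtain ⟨I2, -, hI12, hsp2, hli2⟩ := exists_linearIndepOn_extension (K := ℝ) (v := P)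
    hli1 (Set.subset_univ I1)
  obtain ⟨J1, hJ1⟩ : ∃ J1 : Finset (Fin d), (J1 : Set (Fin d)) = I1 :=
    ⟨I1.toFinset, by simp⟩
  obtain ⟨J2, hJ2⟩ : ∃ J2 : Finset (Fin d), (J2 : Set (Fin d)) = I2 :=
    ⟨I2.toFinset, by simp⟩
  rw [← hJ1] at hli1 hI1 hsp1 hI12
  rw [← hJ2] at hli2 hsp2 hI12
  have hJ12 : J1 ⊆ J2 := by exact_mod_cast hI12
  -- cardinalities
  have hspanI : Submodule.span ℝ (P '' (I : Set (Fin d))) = Submodule.span ℝ (P '' (J1 : Set (Fin d))) := by
    apply le_antisymm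
    · exact Submodule.span_le.2 hsp1
    · exact Submodule.span_mono (Set.image_mono hI1)
  have hr : Module.finrank ℝ (Submodule.span ℝ (P '' (I : Set (Fin d)))) = J1.card := by
    rw [hspanI]
    have h1 := finrank_span_eq_card (R := ℝ) (b := fun i : J1 => P i.1) hli1
    rw [Fintype.card_coe] at h1
    rw [← h1]
    have h2 : Set.range (fun i : J1 => P i.1) = P '' (J1 : Set (Fin d)) := by
      ext x
      simp
    rw [h2]
  have htop2 : Submodule.span ℝ (P '' (J2 : Set (Fin d))) = ⊤ := by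
    rw [eq_top_iff]
    intro z _
    have h1 := hspan z
    exact (Submodule.span_le.2 hsp2) h1
  have hk2 : J2.card = k := by
    have h1 := finrank_span_eq_card (R := ℝ) (b := fun i : J2 => P i.1) hli2
    rw [Fintype.card_coe] at h1
    have h2 : Set.range (fun i : J2 => P i.1) = P '' (J2 : Set (Fin d)) := by
      ext x
      simp
    rw [h2, htop2, finrank_top, Module.finrank_fintype_fun_eq_card, Fintype.card_fin] at h1
    exact h1.symm
  rw [hr] at hcon
  -- coordinates
  obtain ⟨r, hrr⟩ : ∃ r : ℕ, r = J1.card := ⟨_, rfl⟩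
  have hrk : r ≤ k := by
    rw [hrr, ← hk2]
    exact Finset.card_le_card hJ12
  have hId : I.card ≤ d := by
    have := Finset.card_le_univ I
    simpa using this
  rw [← hrr] at hcon
  let σ : Fin k ≃ J2 := (Fintype.equivFinOfCardEq (by rw [Fintype.card_coe, hk2])).symm
  obtain ⟨L, hL⟩ : ∃ L : Matrix (Fin k) (Fin k) ℝ, ∀ s, L s = P (σ s).1 :=
    ⟨fun s => P (σ s).1, fun s => rfl⟩
  have hLdet : L.det ≠ 0 := by
    have h1 : LinearIndependent ℝ (fun s => L s) := by
      have h2 : LinearIndependent ℝ (fun s : Fin k => P (σ s).1) :=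
        (show LinearIndependent ℝ (fun i : J2 => P i.1) from hli2).comp σ σ.injective
      have h3 : (fun s => L s) = fun s : Fin k => P (σ s).1 := funext hL
      rw [h3]
      exact h2
    have h4 : IsUnit L := Matrix.linearIndependent_rows_iff_isUnit.1 h1
    exact ((Matrix.isUnit_iff_isUnit_det _).1 h4).ne_zero
  obtain ⟨R, hR0, hRvol⟩ : ∃ R : ℝ, 0 < R ∧ (k.factorial : ℝ) * |L.det| < R ^ k := by
    refine ⟨(k.factorial : ℝ) * |L.det| + 1, by positivity, ?_⟩
    have h1 : (1 : ℝ) ≤ (k.factorial : ℝ) * |L.det| + 1 := by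
      have : 0 ≤ (k.factorial : ℝ) * |L.det| := by positivity
      linarith
    calc (k.factorial : ℝ) * |L.det| < (k.factorial : ℝ) * |L.det| + 1 := by linarith
      _ ≤ ((k.factorial : ℝ) * |L.det| + 1) ^ k := le_self_pow₀ h1 hk.ne'
  -- expansions of all rows
  have hexp1 : ∀ i ∈ I, ∃ a : Fin d → ℝ, P i = ∑ s ∈ J1, a s • P s := by
    intro i hi
    have h1 : P i ∈ Submodule.span ℝ (P '' (J1 : Set (Fin d))) := hsp1 ⟨i, hi, rfl⟩
    obtain ⟨a, ha⟩ := (Submodule.mem_span_image_finset_iff_exists_fun ℝ).1 h1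
    refine ⟨fun s => if hs : s ∈ J1 then a ⟨s, hs⟩ else 0, ?_⟩
    rw [← ha, ← Finset.sum_coe_sort J1]
    refine Finset.sum_congr rfl fun s _ => ?_
    simp only
    rw [dif_pos s.2]
  have hexp2 : ∀ i, ∃ a : Fin d → ℝ, P i = ∑ s ∈ J2, a s • P s := by
    intro i
    have h1 : P i ∈ Submodule.span ℝ (P '' (J2 : Set (Fin d))) := by rw [htop2]; trivial
    obtain ⟨a, ha⟩ := (Submodule.mem_span_image_finset_iff_exists_fun ℝ).1 h1
    refine ⟨fun s => if hs : s ∈ J2 then a ⟨s, hs⟩ else 0, ?_⟩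
    rw [← ha, ← Finset.sum_coe_sort J2]
    refine Finset.sum_congr rfl fun s _ => ?_
    simp only
    rw [dif_pos s.2]
  choose! a1 ha1 using hexp1
  choose a2 ha2 using hexp2
  obtain ⟨C, hC, hC1, hC2⟩ : ∃ C : ℝ, 1 ≤ C ∧ (∀ i s, |a1 i s| ≤ C) ∧ ∀ i s, |a2 i s| ≤ C := by
    refine ⟨1 + (∑ i, ∑ s, |a1 i s|) + ∑ i, ∑ s, |a2 i s|, ?_, ?_, ?_⟩
    · have h1 : 0 ≤ ∑ i, ∑ s, |a1 i s| := Finset.sum_nonneg fun i _ => Finset.sum_nonneg fun s _ => abs_nonneg _
      have h2 : 0 ≤ ∑ i, ∑ s, |a2 i s| := Finset.sum_nonneg fun i _ => Finset.sum_nonneg fun s _ => abs_nonneg _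
      linarith
    · intro i s
      have h1 : |a1 i s| ≤ ∑ i, ∑ s, |a1 i s| :=
        (Finset.single_le_sum (f := fun s => |a1 i s|) (fun s _ => abs_nonneg _) (Finset.mem_univ s)).trans
          (Finset.single_le_sum (f := fun i => ∑ s, |a1 i s|)
            (fun i _ => Finset.sum_nonneg fun s _ => abs_nonneg _) (Finset.mem_univ i))
      have h2 : 0 ≤ ∑ i, ∑ s, |a2 i s| := Finset.sum_nonneg fun i _ => Finset.sum_nonneg fun s _ => abs_nonneg _
      linarith
    · intro i s
      have h1 : |a2 i s| ≤ ∑ i, ∑ s, |a2 i s| :=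
        (Finset.single_le_sum (f := fun s => |a2 i s|) (fun s _ => abs_nonneg _) (Finset.mem_univ s)).trans
          (Finset.single_le_sum (f := fun i => ∑ s, |a2 i s|)
            (fun i _ => Finset.sum_nonneg fun s _ => abs_nonneg _) (Finset.mem_univ i))
      have h2 : 0 ≤ ∑ i, ∑ s, |a1 i s| := Finset.sum_nonneg fun i _ => Finset.sum_nonneg fun s _ => abs_nonneg _
      linarith
  obtain ⟨B, hB⟩ : ∃ B : ℝ, B = C * R * k := ⟨_, rfl⟩
  have hB0 : 0 < B := by
    rw [hB]
    have : (0 : ℝ) < k := by exact_mod_cast hk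
    have : 0 < C := by linarith
    positivity
  -- the estimate for each `T`
  have key : ∀ T : ℝ, 1 ≤ T → B ≤ δ * T → ν * T ≤ B ^ d := by
    intro T hT hTB
    have hT0 : 0 < T := by linarith
    obtain ⟨w, hw⟩ : ∃ w : Fin k → ℝ, ∀ s, w s = if (σ s).1 ∈ J1 then T ^ (k - r) else (T ^ r)⁻¹ :=
      ⟨_, fun s => rfl⟩
    have hwpos : ∀ s, 0 < w s := by
      intro s
      rw [hw]
      split_ifs
      · positivity
      · positivity
    have hwprod : ∏ s, w s = 1 := by
      simp only [hw]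
      rw [Finset.prod_ite, Finset.prod_const, Finset.prod_const]
      have h1 : (Finset.univ.filter fun s : Fin k => (σ s).1 ∈ J1).card = r := by
        rw [hrr]
        refine Finset.card_bij (fun s _ => (σ s).1) ?_ ?_ ?_
        · intro s hs; exact (Finset.mem_filter.1 hs).2
        · intro s _ s' _ hss
          exact σ.injective (Subtype.ext hss)
        · intro i hi
          refine ⟨σ.symm ⟨i, hJ12 hi⟩, ?_, ?_⟩
          · rw [Finset.mem_filter]
            refine ⟨Finset.mem_univ _, ?_⟩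
            rw [Equiv.apply_symm_apply]
            exact hi
          · rw [Equiv.apply_symm_apply]
      have h2 : (Finset.univ.filter fun s : Fin k => (σ s).1 ∉ J1).card = k - r := by
        have h3 := Finset.card_filter_add_card_filter_not (s := (Finset.univ : Finset (Fin k)))
          (fun s : Fin k => (σ s).1 ∈ J1)
        rw [h1, Finset.card_univ, Fintype.card_fin] at h3
        omega
      rw [h1, h2, inv_pow, ← pow_mul, ← pow_mul, mul_comm r (k - r)]
      exact mul_inv_cancel₀ (by positivity)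
    obtain ⟨y, hy, hsum⟩ := mink hk (diagonal w * L)
      (by rw [det_mul, det_diagonal, hwprod, one_mul]; exact hLdet) R hR0
      (by rw [det_mul, det_diagonal, hwprod, one_mul]; exact hRvol)
    have hrow : ∀ s, w s * |L s ⬝ᵥ iR y| ≤ R := by
      intro s
      have h1 : |((diagonal w * L) *ᵥ iR y) s| = w s * |L s ⬝ᵥ iR y| := by
        rw [← mulVec_mulVec, mulVec_diagonal, abs_mul, abs_of_pos (hwpos s)]
        rfl
      rw [← h1]
      exact (Finset.single_le_sum (f := fun s => |((diagonal w * L) *ᵥ iR y) s|)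
        (fun s _ => abs_nonneg _) (Finset.mem_univ s)).trans hsum.le
    have hJ1row : ∀ i ∈ J1, |P i ⬝ᵥ iR y| * T ^ (k - r) ≤ R := by
      intro i hi
      have h1 := hrow (σ.symm ⟨i, hJ12 hi⟩)
      rw [hw, hL, Equiv.apply_symm_apply, if_pos hi, mul_comm] at h1
      exact h1
    have hJ2row : ∀ i ∈ J2, |P i ⬝ᵥ iR y| ≤ R * T ^ r := by
      intro i hi
      have h1 := hrow (σ.symm ⟨i, hi⟩)
      rw [hw, hL, Equiv.apply_symm_apply] at h1
      have hTr : 1 ≤ T ^ r := one_le_pow₀ hT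
      by_cases hi1 : i ∈ J1
      · rw [if_pos hi1] at h1
        have hTk : 1 ≤ T ^ (k - r) := one_le_pow₀ hT
        have h2 : |P i ⬝ᵥ iR y| ≤ T ^ (k - r) * |P i ⬝ᵥ iR y| :=
          le_mul_of_one_le_left (abs_nonneg _) hTk
        exact (h2.trans h1).trans (le_mul_of_one_le_right hR0.le hTr)
      · rw [if_neg hi1, inv_mul_le_iff₀ (by positivity)] at h1
        rw [mul_comm R]
        exact h1
    have hJ1k : (J1.card : ℝ) ≤ k := by
      rw [← hrr]; exact_mod_cast hrk
    have hJ2k : (J2.card : ℝ) ≤ k := by rw [hk2]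
    have hR' : ∀ i ∈ I, |P i ⬝ᵥ iR y| * T ^ (k - r) ≤ B := by
      intro i hi
      have hTk : 0 < T ^ (k - r) := by positivity
      have h1 : |P i ⬝ᵥ iR y| ≤ ∑ s ∈ J1, C * |P s ⬝ᵥ iR y| := by
        rw [ha1 i hi, sum_dotProduct]
        refine (Finset.abs_sum_le_sum_abs _ _).trans (Finset.sum_le_sum fun s _ => ?_)
        rw [smul_dotProduct, smul_eq_mul, abs_mul]
        exact mul_le_mul_of_nonneg_right (hC1 i s) (abs_nonneg _)
      calc |P i ⬝ᵥ iR y| * T ^ (k - r) ≤ (∑ s ∈ J1, C * |P s ⬝ᵥ iR y|) * T ^ (k - r) :=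
            mul_le_mul_of_nonneg_right h1 hTk.le
        _ = ∑ s ∈ J1, C * (|P s ⬝ᵥ iR y| * T ^ (k - r)) := by
            rw [Finset.sum_mul]
            exact Finset.sum_congr rfl fun s _ => by ring
        _ ≤ ∑ s ∈ J1, C * R := Finset.sum_le_sum fun s hs =>
            mul_le_mul_of_nonneg_left (hJ1row s hs) (by linarith)
        _ = C * R * J1.card := by rw [Finset.sum_const, nsmul_eq_mul]; ring
        _ ≤ B := by
            rw [hB]
            exact mul_le_mul_of_nonneg_left hJ1k (by positivity)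
    have hR'' : ∀ i, |P i ⬝ᵥ iR y| ≤ B * T ^ r := by
      intro i
      have hTk : 0 < T ^ r := by positivity
      have h1 : |P i ⬝ᵥ iR y| ≤ ∑ s ∈ J2, C * |P s ⬝ᵥ iR y| := by
        conv_lhs => rw [ha2 i]
        rw [sum_dotProduct]
        refine (Finset.abs_sum_le_sum_abs _ _).trans (Finset.sum_le_sum fun s _ => ?_)
        rw [smul_dotProduct, smul_eq_mul, abs_mul]
        exact mul_le_mul_of_nonneg_right (hC2 i s) (abs_nonneg _)
      calc |P i ⬝ᵥ iR y| ≤ ∑ s ∈ J2, C * |P s ⬝ᵥ iR y| := h1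
        _ ≤ ∑ s ∈ J2, C * (R * T ^ r) := Finset.sum_le_sum fun s hs =>
            mul_le_mul_of_nonneg_left (hJ2row s hs) (by linarith)
        _ = C * R * T ^ r * J2.card := by rw [Finset.sum_const, nsmul_eq_mul]; ring
        _ ≤ C * R * T ^ r * k := mul_le_mul_of_nonneg_left hJ2k (by positivity)
        _ = B * T ^ r := by rw [hB]; ring
    -- the value of the form
    have hUy : U *ᵥ y ≠ 0 := by
      intro h0
      apply hy
      have h1 : iR y = Y *ᵥ ((U.map (Int.cast : ℤ → ℝ)) *ᵥ iR y) := by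
        rw [mulVec_mulVec, hYU, one_mulVec]
      rw [mul_zR_mulVec, h0] at h1
      have h2 : iR (0 : Fin d → ℤ) = 0 := by funext j; simp [iR]
      rw [h2, mulVec_zero] at h1
      funext j
      have h3 := congrFun h1 j
      simp only [iR, Pi.zero_apply] at h3
      exact_mod_cast h3
    have hkr1 : 1 ≤ k - r := by
      by_contra hc
      have h1 : k ≤ r := by omega
      have h2 : k * I.card ≤ r * d := Nat.mul_le_mul h1 hId
      omega
    have hval := hnear (U *ᵥ y) hUy (by
      intro i hi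
      have h1 : ∑ j, h i j * iR (U *ᵥ y) j = P i ⬝ᵥ iR y := by
        have h2 : ∑ j, h i j * iR (U *ᵥ y) j = (h *ᵥ iR (U *ᵥ y)) i := rfl
        rw [h2, ← mul_zR_mulVec, mulVec_mulVec, hP]
        rfl
      rw [h1]
      have h3 := hR' i hi
      have h4 : T ≤ T ^ (k - r) := le_self_pow₀ hT (by omega)
      have h5 : |P i ⬝ᵥ iR y| * T ≤ B := (mul_le_mul_of_nonneg_left h4 (abs_nonneg _)).trans h3
      have h6 : |P i ⬝ᵥ iR y| * T ≤ δ * T := h5.trans hTB
      have h7 : |P i ⬝ᵥ iR y| ≤ δ := le_of_mul_le_mul_right h6 hT0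
      exact h7.trans (le_mul_of_one_le_right hδ.le (one_le_sum hUy)))
    have hFF : |FF h (iR (U *ᵥ y))| = ∏ i, |P i ⬝ᵥ iR y| := by
      rw [← mul_zR_mulVec, FF_eq, Finset.abs_prod]
      refine Finset.prod_congr rfl fun i _ => ?_
      rw [mulVec_mulVec, hP]
      rfl
    rw [hFF] at hval
    have hnat : r * (d - I.card) + 1 ≤ (k - r) * I.card := by
      zify [hrk, hId]
      have h1 : ((r : ℤ) * d + 1 ≤ k * I.card) := by exact_mod_cast hcon
      nlinarith [h1]
    have hsplit : (∏ i, |P i ⬝ᵥ iR y|) * T ^ ((k - r) * I.card) ≤ B ^ d * T ^ (r * (d - I.card)) := by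
      have h1 : (∏ i, |P i ⬝ᵥ iR y|) * T ^ ((k - r) * I.card) =
          ∏ i, (|P i ⬝ᵥ iR y| * if i ∈ I then T ^ (k - r) else 1) := by
        rw [Finset.prod_mul_distrib]
        congr 1
        rw [Finset.prod_ite, Finset.prod_const, Finset.prod_const_one, mul_one, pow_mul]
        congr 2
        ext i; simp
      have h2 : B ^ d * T ^ (r * (d - I.card)) = ∏ i : Fin d, (B * if i ∈ I then 1 else T ^ r) := by
        rw [Finset.prod_mul_distrib, Finset.prod_const, Finset.card_univ, Fintype.card_fin]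
        congr 1
        rw [Finset.prod_ite, Finset.prod_const, Finset.prod_const, one_pow, one_mul, pow_mul]
        congr 1
        have h3 : (Finset.univ.filter fun i : Fin d => i ∉ I) = Iᶜ := by ext; simp
        rw [h3, Finset.card_compl, Fintype.card_fin]
      rw [h1, h2]
      refine Finset.prod_le_prod (fun i _ => ?_) (fun i _ => ?_)
      · split_ifs <;> positivity
      · by_cases hi : i ∈ I
        · rw [if_pos hi, if_pos hi, mul_one]
          exact hR' i hi
        · rw [if_neg hi, if_neg hi, mul_one]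
          exact hR'' i
    have hTa : 0 < T ^ (r * (d - I.card)) := by positivity
    have h5 : ν * T * T ^ (r * (d - I.card)) ≤ B ^ d * T ^ (r * (d - I.card)) := by
      calc ν * T * T ^ (r * (d - I.card)) = ν * T ^ (r * (d - I.card) + 1) := by rw [pow_succ]; ring
        _ ≤ ν * T ^ ((k - r) * I.card) :=
            mul_le_mul_of_nonneg_left (pow_le_pow_right₀ hT hnat) hν.le
        _ ≤ (∏ i, |P i ⬝ᵥ iR y|) * T ^ ((k - r) * I.card) :=
            mul_le_mul_of_nonneg_right hval (by positivity)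
        _ ≤ _ := hsplit
    exact le_of_mul_le_mul_right h5 hTa
  have hfin := key (B ^ d / ν + 1 + B / δ) (by
    have : 0 < B ^ d / ν := by positivity
    have : 0 < B / δ := by positivity
    linarith) (by
    have h1 : δ * (B ^ d / ν + 1 + B / δ) = δ * (B ^ d / ν + 1) + B := by
      field_simp
    rw [h1]
    have : 0 < δ * (B ^ d / ν + 1) := by positivity
    linarith)
  have h1 : ν * (B ^ d / ν + 1 + B / δ) = B ^ d + ν * (1 + B / δ) := by
    field_simp
    ring
  rw [h1] at hfin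
  have h2 : 0 < ν * (1 + B / δ) := by positivity
  linarith

end Pool.Agent.K3h4.OL
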