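import Mathlib
import Pool.Agent.K3h4.OL.Point

/-! # Forms with coefficients in a number field of small degree -/

open Filter Topology H715R2 Matrix
open Pool.Agent.K3h4.OC

namespace Pool.Agent.K3h4.OL

variable {d : ℕ}

/-- If one of the forms is a multiple of a form with coefficients in a real number field of degree
at most `n`, and the product is bounded away from zero near its kernel, the kernel is preserved by
a rational matrix with irreducible characteristic polynomial. -/
theorem exists_matrix_of_form (hd : 2 ≤ d) (h : Matrix (Fin d) (Fin d) ℝ) (hdet : h.det ≠ 0)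
    (δ ν : ℝ) (hδ : 0 < δ) (hν : 0 < ν) (K : IntermediateField ℚ ℝ) [FiniteDimensional ℚ K]
    (hK : Module.finrank ℚ K ≤ d) (i₀ : Fin d) (s : ℝ) (hs : s ≠ 0) (hsK : ∀ j, s * h i₀ j ∈ K)
    (hnear : Near h {i₀} δ ν) :
    ∃ A : Matrix (Fin d) (Fin d) ℚ, Irreducible A.charpoly ∧ Pres h {i₀} A := by
  classical
  obtain ⟨wK, hwKv⟩ : ∃ wK : Fin d → K, ∀ j, ((wK j : K) : ℝ) = s * h i₀ j :=
    ⟨fun j => ⟨s * h i₀ j, hsK j⟩, fun j => rfl⟩
  have hw0 : (fun j => ((wK j : K) : ℝ)) ≠ 0 := by
    intro h0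
    apply hdet
    refine Matrix.det_eq_zero_of_row_eq_zero i₀ fun j => ?_
    have h1 := congrFun h0 j
    simp only [Pi.zero_apply] at h1
    rw [hwKv] at h1
    exact (mul_eq_zero.1 h1).resolve_left hs
  have hli : LinearIndependent ℚ wK := by
    rw [Fintype.linearIndependent_iff]
    intro q hq
    by_contra hcon
    -- an integer point in the kernel
    obtain ⟨N, hN⟩ : ∃ N : ℕ, N = ∏ k, (q k).den := ⟨_, rfl⟩
    have hN0 : (N : ℚ) ≠ 0 := by
      rw [hN]
      push_cast
      exact Finset.prod_ne_zero_iff.2 fun k _ => by exact_mod_cast (q k).den_ne_zero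
    have hz : ∀ j, ∃ z : ℤ, (z : ℚ) = N * q j := by
      intro j
      refine ⟨(∏ k ∈ Finset.univ.erase j, ((q k).den : ℤ)) * (q j).num, ?_⟩
      have h1 : (N : ℚ) = (q j).den * ∏ k ∈ Finset.univ.erase j, ((q k).den : ℚ) := by
        rw [hN]
        push_cast
        exact (Finset.mul_prod_erase _ _ (Finset.mem_univ j)).symm
      rw [h1]
      push_cast
      have h2 : ((q j).num : ℚ) = (q j).den * q j := by
        rw [mul_comm]; exact (Rat.mul_den_eq_num (q j)).symm
      rw [h2]
      ring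
    choose z hz using hz
    have hz0 : z ≠ 0 := by
      intro h0
      apply hcon
      intro j
      have h1 := hz j
      rw [h0] at h1
      simp only [Pi.zero_apply, Int.cast_zero] at h1
      exact (mul_eq_zero.1 h1.symm).resolve_left hN0
    have hval : ∑ j, h i₀ j * iR z j = 0 := by
      have h1 := congrArg (fun z : K => (z : ℝ)) hq
      simp only [ZeroMemClass.coe_zero] at h1
      have h2 : ∑ j, (q j : ℝ) * (s * h i₀ j) = 0 := by
        rw [← h1]
        push_cast
        refine Finset.sum_congr rfl fun j _ => ?_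
        rw [Rat.smul_def, hwKv]
      have h3 : (s : ℝ) * ∑ j, h i₀ j * iR z j = (N : ℝ) * ∑ j, (q j : ℝ) * (s * h i₀ j) := by
        rw [Finset.mul_sum, Finset.mul_sum]
        refine Finset.sum_congr rfl fun j _ => ?_
        have h4 : iR z j = (N : ℝ) * (q j : ℝ) := by
          have := congrArg (fun t : ℚ => (t : ℝ)) (hz j)
          push_cast at this
          exact this
        rw [h4]
        ring
      rw [h2, mul_zero] at h3
      exact (mul_eq_zero.1 h3).resolve_left hs
    have h1 := hnear z hz0 (by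
      intro i hi
      rw [Finset.mem_singleton] at hi
      rw [hi, hval, abs_zero]
      exact mul_nonneg hδ.le (Finset.sum_nonneg fun _ _ => abs_nonneg _))
    rw [FF, Finset.prod_eq_zero (Finset.mem_univ i₀) hval, abs_zero] at h1
    exact absurd hν (not_lt.2 h1)
  have hNF : NumberField K := { to_charZero := inferInstance, to_finiteDimensional := inferInstance }
  have hcard : Fintype.card (Fin d) = Module.finrank ℚ K :=
    le_antisymm hli.fintype_card_le_finrank (by simpa using hK)
  have hne : Nonempty (Fin d) := ⟨⟨0, by omega⟩⟩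
  obtain ⟨b, hb⟩ : ∃ b : Module.Basis (Fin d) ℚ K, ∀ j, b j = wK j :=
    ⟨basisOfLinearIndependentOfCardEqFinrank hli hcard, fun j => by
      simp [basisOfLinearIndependentOfCardEqFinrank]⟩
  obtain ⟨θ, hθ⟩ := Field.exists_primitive_element ℚ K
  obtain ⟨A, hA⟩ : ∃ A : Matrix (Fin d) (Fin d) ℚ, ∀ k, ∑ j, A j k • wK j = θ * wK k := by
    refine ⟨fun j k => b.repr (θ * wK k) j, fun k => ?_⟩
    have h1 := b.sum_repr (θ * wK k)
    simp only [hb] at h1
    exact h1
  have hAw : (fun j => ((wK j : K) : ℝ)) ᵥ* (A.map (Rat.cast : ℚ → ℝ)) =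
      (θ : ℝ) • (fun j => ((wK j : K) : ℝ)) := by
    funext k
    have h1 := congrArg (fun z : K => (z : ℝ)) (hA k)
    push_cast at h1
    rw [Pi.smul_apply, smul_eq_mul, ← h1, Matrix.vecMul, dotProduct]
    refine Finset.sum_congr rfl fun j _ => ?_
    rw [Matrix.map_apply, Rat.smul_def, mul_comm]
  refine ⟨A, ?_, ?_⟩
  · have hdet0 : (Matrix.scalar (Fin d) (θ : ℝ) - A.map (algebraMap ℚ ℝ)).det = 0 := by
      refine Matrix.exists_vecMul_eq_zero_iff.1 ⟨_, hw0, ?_⟩
      rw [Matrix.vecMul_sub, sub_eq_zero]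
      have h2 : A.map (algebraMap ℚ ℝ) = A.map (Rat.cast : ℚ → ℝ) := rfl
      rw [h2, hAw]
      funext i
      simp [Matrix.vecMul, dotProduct, Matrix.scalar_apply, Matrix.diagonal_apply, mul_comm]
    have hroot : Polynomial.aeval (θ : ℝ) A.charpoly = 0 := by
      rw [← Matrix.eval_charpoly, Matrix.charpoly_map, Polynomial.eval_map_algebraMap] at hdet0
      exact hdet0
    have hint : IsIntegral ℚ θ := Algebra.IsIntegral.isIntegral θ
    have hintR : IsIntegral ℚ (θ : ℝ) := hint.map K.val
    have hmin : minpoly ℚ (θ : ℝ) = minpoly ℚ θ := minpoly.algHom_eq K.val K.val.injective θ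
    have hdeg : (minpoly ℚ θ).natDegree = d := by
      rw [← IntermediateField.adjoin.finrank hint, hθ, IntermediateField.finrank_top', ← hcard,
        Fintype.card_fin]
    have heq := Polynomial.eq_of_monic_of_dvd_of_natDegree_le (minpoly.monic hintR)
      A.charpoly_monic (minpoly.dvd ℚ (θ : ℝ) hroot) (by
        rw [hmin, hdeg, Matrix.charpoly_natDegree_eq_dim, Fintype.card_fin])
    rw [heq]
    exact minpoly.irreducible hintR
  · intro x hx i hi
    rw [Finset.mem_singleton] at hi
    rw [hi]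
    have h0 := hx i₀ (Finset.mem_singleton_self i₀)
    have h1 : (fun j => ((wK j : K) : ℝ)) ⬝ᵥ x = 0 := by
      have : (fun j => ((wK j : K) : ℝ)) ⬝ᵥ x = s * (h *ᵥ x) i₀ := by
        rw [Matrix.mulVec, dotProduct, dotProduct, Finset.mul_sum]
        refine Finset.sum_congr rfl fun j _ => ?_
        rw [hwKv]; ring
      rw [this, h0, mul_zero]
    have h2 : s * (h *ᵥ ((A.map (Rat.cast : ℚ → ℝ)) *ᵥ x)) i₀ =
        (fun j => ((wK j : K) : ℝ)) ⬝ᵥ ((A.map (Rat.cast : ℚ → ℝ)) *ᵥ x) := by
      have h3 : (h *ᵥ ((A.map (Rat.cast : ℚ → ℝ)) *ᵥ x)) i₀ =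
          ∑ j, h i₀ j * ((A.map (Rat.cast : ℚ → ℝ)) *ᵥ x) j := rfl
      rw [h3, dotProduct, Finset.mul_sum]
      refine Finset.sum_congr rfl fun j _ => ?_
      rw [hwKv]; ring
    rw [Matrix.dotProduct_mulVec, hAw, smul_dotProduct, h1, smul_zero] at h2
    exact (mul_eq_zero.1 h2).resolve_left hs

end Pool.Agent.K3h4.OL
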