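import Mathlib
import Pool.Agent.K3h4.OL.Conv
import Pool.Agent.K3h4.OL.Point

/-! # The equivalence -/

open NumberField Filter Topology H715R2 Matrix
open Pool.Agent.K3h4.OC

namespace Pool.Agent.K3h4.OL

variable {d : ℕ}

theorem near_iff (hd : 3 ≤ d) (A : Matrix (Fin d) (Fin d) ℚ) (hA : Irreducible A.charpoly)
    (h : Matrix (Fin d) (Fin d) ℝ) (hdet : h.det ≠ 0)
    (I : Finset (Fin d)) (hI : I.card < d) (hinv : Pres h I A)
    (hcond : Nat.Coprime I.card d ∨
      ∀ B C : Matrix (Fin d) (Fin d) ℚ, Pres h I B → Pres h I C → B * C = C * B) :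
    ((∃ δ : ℝ, 0 < δ ∧ ∃ ν : ℝ, 0 < ν ∧ Near h I δ ν) ↔
      ∀ i, (i ∈ I ∨ I.card + 2 ≤ d) → Pres h {i} A) ∧
    ((∃ δ : ℝ, 0 < δ ∧ ∃ ν : ℝ, 0 < ν ∧ Near h I δ ν) →
      (∀ z : ℂ, Polynomial.aeval z A.charpoly = 0 → z.im = 0) ∧
      (I.card + 2 ≤ d → PropInt h ∧
        ∃ ν : ℝ, 0 < ν ∧ ∀ p : Fin d → ℤ, p ≠ 0 → ν ≤ |FF h (iR p)|)) := by
  classical
  have hd0 : 0 < d := by omega
  obtain ⟨K, _, _, D, lam, hDh, hDI, hlam, hinj⟩ := exists_sys hd0 A hA h hdet I hinv hcond
  subst hDh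
  subst hDI
  -- consequences of the local hypothesis
  have hfwd : (∃ δ : ℝ, 0 < δ ∧ ∃ ν : ℝ, 0 < ν ∧ Near D.h D.I δ ν) →
      ∃ t : Fin d → (K →+* ℂ), Function.Bijective t ∧
        (∀ i, (i ∈ D.I ∨ D.I.card + 2 ≤ d) → ∀ τ, τ ≠ t i → D.H i τ = 0) ∧
        ∀ τ : K →+* ℂ, ComplexEmbedding.conjugate τ = τ := by
    rintro ⟨δ, hδ, ν, hν, hnear⟩
    obtain ⟨t, ht, ht0, htJ, hsupp, hreal⟩ := D.stage_one hd0 hI hδ hν hnear
    refine ⟨t, ht, ?_, hreal⟩
    intro i hi τ hτ
    rcases hi with hi | hc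
    · by_contra hne
      exact (hsupp i τ hne hτ).1 hi
    · exact D.stage_two hc hδ hν hnear t ht ht0 htJ hsupp hreal i τ hτ
  refine ⟨⟨fun hn => ?_, fun hp => ?_⟩, fun hn => ?_⟩
  · obtain ⟨t, ht, hm, hreal⟩ := hfwd hn
    intro i hi
    exact D.pres_of_mono hlam i (t i) (hm i hi)
  · by_cases hc : D.I.card + 2 ≤ d
    · -- all rows
      choose t ht using fun i => D.mono_of_pres hlam hinj i (hp i (Or.inr hc))
      have hsurj : Function.Surjective t := by
        intro τ
        obtain ⟨i, hi⟩ := D.exists_row τ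
        refine ⟨i, ?_⟩
        by_contra hne
        exact hi (ht i τ (fun h => hne h.symm))
      have hbij : Function.Bijective t := by
        rw [Fintype.bijective_iff_surjective_and_card]
        exact ⟨hsurj, by rw [Fintype.card_fin, D.card_emb]⟩
      obtain ⟨ν, hν, hlow⟩ := D.lower_all t hbij ht
      exact ⟨1, one_pos, ν, hν, fun p hp0 _ => hlow p hp0⟩
    · -- all rows but one
      have hcard : D.I.card + 1 = d := by omega
      obtain ⟨k, hk⟩ : ∃ k, D.I = Finset.univ.erase k := by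
        have h1 : (D.Iᶜ).card = 1 := by
          rw [Finset.card_compl, Fintype.card_fin]
          omega
        obtain ⟨k, hk⟩ := Finset.card_eq_one.1 h1
        refine ⟨k, ?_⟩
        rw [← compl_compl D.I, hk]
        ext i
        simp
      have hrow : ∀ i, ∃ τ₁, i ∈ D.I → ∀ τ, τ ≠ τ₁ → D.H i τ = 0 := by
        intro i
        by_cases hi : i ∈ D.I
        · obtain ⟨τ₁, h1⟩ := D.mono_of_pres hlam hinj i (hp i (Or.inl hi))
          exact ⟨τ₁, fun _ => h1⟩
        · have hne : Nonempty (K →+* ℂ) := inferInstance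
          obtain ⟨τ₁⟩ := hne
          exact ⟨τ₁, fun h => absurd h hi⟩
      choose s hs using hrow
      obtain ⟨τ₁, hτ₁, hτu⟩ : ∃ τ₁, τ₁ ∉ D.J ∧ ∀ τ, τ ∉ D.J → τ = τ₁ := by
        have h1 : (D.Jᶜ).card = 1 := by
          rw [Finset.card_compl, D.card_emb, D.hcard]
          omega
        obtain ⟨τ₁, hτ₁⟩ := Finset.card_eq_one.1 h1
        refine ⟨τ₁, ?_, fun τ hτ => ?_⟩
        · have : τ₁ ∈ D.Jᶜ := by rw [hτ₁]; exact Finset.mem_singleton_self _
          exact Finset.mem_compl.1 this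
        · have : τ ∈ D.Jᶜ := Finset.mem_compl.2 hτ
          rw [hτ₁] at this
          exact Finset.mem_singleton.1 this
      have hkI : k ∉ D.I := by
        rw [hk]; simp
      obtain ⟨t, ht⟩ : ∃ t : Fin d → (K →+* ℂ), t = Function.update s k τ₁ := ⟨_, rfl⟩
      have htk : t k = τ₁ := by rw [ht, Function.update_self]
      have hti : ∀ i, i ≠ k → t i = s i := by
        intro i hi
        rw [ht, Function.update_of_ne hi]
      have hsurj : Function.Surjective t := by
        intro τ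
        by_cases hτ : τ ∈ D.J
        · obtain ⟨i, hi, hH⟩ := (D.hJ τ).1 hτ
          refine ⟨i, ?_⟩
          have hik : i ≠ k := by rintro rfl; exact hkI hi
          rw [hti i hik]
          by_contra hne
          exact hH (hs i hi τ (fun h => hne h.symm))
        · exact ⟨k, by rw [htk, hτu τ hτ]⟩
      have hbij : Function.Bijective t := by
        rw [Fintype.bijective_iff_surjective_and_card]
        exact ⟨hsurj, by rw [Fintype.card_fin, D.card_emb]⟩
      obtain ⟨δ, hδ, ν, hν, hnear⟩ := D.lower_line hd0 k t hbij (by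
        intro i hik τ hτ
        rw [hti i hik] at hτ
        exact hs i (by rw [hk]; exact Finset.mem_erase.2 ⟨hik, Finset.mem_univ i⟩) τ hτ)
      refine ⟨δ, hδ, ν, hν, ?_⟩
      rw [hk]
      exact hnear
  · obtain ⟨t, ht, hm, hreal⟩ := hfwd hn
    refine ⟨?_, fun hc => ?_⟩
    · intro z hz
      obtain ⟨τ, rfl⟩ := D.root_eq hlam z hz
      have h1 := congrArg (fun f : K →+* ℂ => f lam) (hreal τ)
      have h2 : (starRingEnd ℂ) (τ lam) = τ lam := h1
      exact Complex.conj_eq_iff_im.1 h2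
    · have hm' : ∀ i τ, τ ≠ t i → D.H i τ = 0 := fun i => hm i (Or.inr hc)
      refine ⟨?_, D.lower_all t ht hm'⟩
      refine norm_form hd0 (fun j => D.b j) t ht (fun i => D.H i (t i)) D.h D.hdet ?_
      intro i j
      rw [D.hH i j, Finset.sum_eq_single (t i) (fun τ _ h => by rw [hm' i τ h, zero_mul])
        (by simp)]

end Pool.Agent.K3h4.OL
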