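import Mathlib
import Pool.Agent.K3h4.OL.Main
import Pool.Agent.K3h4.OL.Form
import Pool.Agent.H905R2.OppD

/-! # Auxiliary statements for the results -/

set_option autoImplicit false

open Filter Topology H715R2 Matrix
open Pool.Agent.K3h4.OC

namespace Pool.Agent.K3h4.OL

/-- the rational matrix maps the intersection of the hyperplanes to itself -/
def PresL {n : ℕ} (L : Fin n → Fin n → ℝ) (I : Finset (Fin n)) (B : Matrix (Fin n) (Fin n) ℚ) :
    Prop :=
  ∀ x : Fin n → ℝ, (∀ i ∈ I, ∑ j, L i j * x j = 0) →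
    ∀ i ∈ I, ∑ j, L i j * ((B.map (Rat.cast : ℚ → ℝ)).mulVec x) j = 0

/-- polynomials in a matrix which preserves the intersection preserve it -/
lemma preserves_aeval {n : ℕ} {L : Fin n → Fin n → ℝ} {I : Finset (Fin n)}
    {A : Matrix (Fin n) (Fin n) ℚ} (hA : PresL L I A) (Q : Polynomial ℚ) :
    PresL L I (Polynomial.aeval A Q) := by
  classical
  induction Q using Polynomial.induction_on with
  | C a =>
    intro x hx i hi
    have h1 : ((Polynomial.aeval A (Polynomial.C a)).map (Rat.cast : ℚ → ℝ)).mulVec x =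
        (a : ℝ) • x := by
      rw [Polynomial.aeval_C]
      funext j
      rw [Matrix.mulVec, dotProduct, Finset.sum_eq_single j]
      · simp [Matrix.algebraMap_matrix_apply]
      · intro k _ hk
        simp [Matrix.algebraMap_matrix_apply, Ne.symm hk]
      · simp
    rw [h1]
    have h2 : ∑ j, L i j * ((a : ℝ) • x) j = (a : ℝ) * ∑ j, L i j * x j := by
      rw [Finset.mul_sum]
      refine Finset.sum_congr rfl fun j _ => ?_
      rw [Pi.smul_apply, smul_eq_mul]; ring
    rw [h2, hx i hi, mul_zero]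
  | add Q R hQ hR =>
    intro x hx i hi
    have h1 : ((Polynomial.aeval A (Q + R)).map (Rat.cast : ℚ → ℝ)).mulVec x =
        ((Polynomial.aeval A Q).map (Rat.cast : ℚ → ℝ)).mulVec x +
        ((Polynomial.aeval A R).map (Rat.cast : ℚ → ℝ)).mulVec x := by
      rw [map_add, ← Matrix.add_mulVec]
      congr 1
      ext i j
      simp [Matrix.map_apply]
    rw [h1]
    have h2 := hQ x hx i hi
    have h3 := hR x hx i hi
    simp only [Pi.add_apply, mul_add, Finset.sum_add_distrib]
    rw [h2, h3, add_zero]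
  | monomial k a ih =>
    intro x hx i hi
    have h0 : (Polynomial.C a * Polynomial.X ^ (k + 1) : Polynomial ℚ) =
        Polynomial.X * (Polynomial.C a * Polynomial.X ^ k) := by ring
    have h1 : Polynomial.aeval A (Polynomial.C a * Polynomial.X ^ (k + 1)) =
        A * Polynomial.aeval A (Polynomial.C a * Polynomial.X ^ k) := by
      rw [h0, map_mul (Polynomial.aeval A) Polynomial.X, Polynomial.aeval_X]
    have h2 : ((A * Polynomial.aeval A (Polynomial.C a * Polynomial.X ^ k)).map
        (Rat.cast : ℚ → ℝ)).mulVec x =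
        (A.map (Rat.cast : ℚ → ℝ)).mulVec
          (((Polynomial.aeval A (Polynomial.C a * Polynomial.X ^ k)).map
            (Rat.cast : ℚ → ℝ)).mulVec x) := by
      rw [Matrix.mulVec_mulVec]
      congr 1
      ext i j
      rw [Matrix.map_apply, Matrix.mul_apply, Matrix.mul_apply]
      push_cast
      rfl
    rw [h1, h2]
    exact hA _ (ih x hx) i hi


/-- a system with Oppenheim's matrix is bounded away from zero -/
theorem bounded_of_matrix {n : ℕ} (hn : 3 ≤ n) {L : Fin n → Fin n → ℝ}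
    (hL : LinearIndependent ℝ L) (A : Matrix (Fin n) (Fin n) ℤ)
    (hirr : Irreducible (A.charpoly.map (Int.castRingHom ℚ)))
    (hA : ∀ i : Fin n, ∀ x : Fin n → ℝ, ∑ j, L i j * x j = 0 →
      ∑ j, L i j * ((A.map (Int.cast : ℤ → ℝ)).mulVec x) j = 0) :
    ∃ ν : ℝ, 0 < ν ∧ ∀ p : Fin n → ℤ, p ≠ 0 → ν ≤ |FF (Matrix.of L) (iR p)| := by
  have hdet := Pool.Agent.H905R2.Opp.det_ne hL
  obtain ⟨B, hB⟩ : ∃ B : Matrix (Fin n) (Fin n) ℚ, B = A.map (Int.cast : ℤ → ℚ) := ⟨_, rfl⟩
  have hBA : B.map (Rat.cast : ℚ → ℝ) = A.map (Int.cast : ℤ → ℝ) := by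
    rw [hB]
    ext i j
    simp [Matrix.map_apply]
  have hchar : B.charpoly = A.charpoly.map (Int.castRingHom ℚ) := by
    rw [hB]
    exact Matrix.charpoly_map A (Int.castRingHom ℚ)
  have hP : ∀ i, Pres (Matrix.of L) {i} B := by
    intro i x hx i' hi'
    rw [Finset.mem_singleton] at hi'
    rw [hi', hBA]
    exact hA i x (hx i (Finset.mem_singleton_self i))
  obtain ⟨h1, h2⟩ := near_iff hn B (by rw [hchar]; exact hirr) (Matrix.of L) hdet
    {⟨0, by omega⟩} (by rw [Finset.card_singleton]; omega) (hP _)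
    (Or.inl (by rw [Finset.card_singleton]; exact Nat.coprime_one_left _))
  exact ((h2 (h1.2 fun i _ => hP i)).2 (by rw [Finset.card_singleton]; omega)).2

lemma coprime_of_prime {n : ℕ} (hp : n.Prime) {I : Finset (Fin n)} (hI0 : I.Nonempty)
    (hI1 : I ≠ Finset.univ) : Nat.Coprime I.card n := by
  rw [Nat.coprime_comm, hp.coprime_iff_not_dvd]
  intro hdvd
  have h1 : 0 < I.card := hI0.card_pos
  have h2 := Nat.le_of_dvd h1 hdvd
  apply hI1
  refine Finset.eq_univ_of_card I ?_
  have h3 := Finset.card_le_univ I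
  rw [Fintype.card_fin] at h3 ⊢
  omega

/-- in prime dimension the characteristic polynomial is irreducible -/
theorem irreducible_of_prime {n : ℕ} (hp : n.Prime) {L : Fin n → Fin n → ℝ}
    (hL : LinearIndependent ℝ L) {I : Finset (Fin n)} (hI0 : I.Nonempty)
    (hI1 : I ≠ Finset.univ) {A : Matrix (Fin n) (Fin n) ℚ} (hA : PresL L I A)
    (hAs : ∀ a : ℚ, A ≠ a • (1 : Matrix (Fin n) (Fin n) ℚ))
    (δ ν : ℝ) (hδ : 0 < δ) (hν : 0 < ν) (hnear : Near (Matrix.of L) I δ ν) :
    Irreducible A.charpoly := by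
  have hdet := Pool.Agent.H905R2.Opp.det_ne hL
  refine Pool.Agent.K3h4.OC.charpoly_irreducible hp A hAs fun Q hQ => ?_
  exact OL.det_ne_zero_of_invariant (Matrix.of L) hdet δ ν hδ hν I hnear
    (coprime_of_prime hp hI0 hI1) _ (preserves_aeval hA Q) hQ

end Pool.Agent.K3h4.OL
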